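import Pool.Agent.Q167.SQ.F

/-! # Andrica's inequality for random primes with limited independence: upper bound -/

set_option autoImplicit false

namespace Q167.AN

open Finset MeasureTheory Filter Topology Q198.CI Q167.LI Q167.SQ

/-- Andrica's inequality fails for some consecutive elements of `A` beyond `N` -/
def Fails (A : Set ℕ) (N : ℕ) : Prop :=
  ∃ a ∈ A, ∃ b ∈ A, N ≤ a ∧ a < b ∧ (∀ c ∈ A, ¬ (a < c ∧ c < b)) ∧
    1 ≤ Real.sqrt b - Real.sqrt a

lemma fails_window {A : Set ℕ} {N : ℕ} (h : Fails A N) :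
    ∃ a : ℕ, N ≤ a ∧ ∀ c : ℕ, a < c → (c : ℝ) ≤ a + 2 * Real.sqrt a → c ∉ A := by
  obtain ⟨a, _, b, _, hN, _, hc, hs⟩ := h
  refine ⟨a, hN, fun c h1 h2 hcA => hc c hcA ⟨h1, ?_⟩⟩
  have ha := Real.sq_sqrt (Nat.cast_nonneg (α := ℝ) a)
  have hb := Real.sq_sqrt (Nat.cast_nonneg (α := ℝ) b)
  have ha0 := Real.sqrt_nonneg (a : ℝ)
  have h3 : (a : ℝ) + 2 * Real.sqrt a + 1 ≤ b := by nlinarith
  have h4 : (c : ℝ) < b := by linarith
  exact_mod_cast h4

/-- the bound for one scale -/
lemma scale_bound {m i : ℕ} {η R L c w : ℝ} (hη : 0 < η) (hη1 : η ≤ 1 / 4) (hm : 2 ≤ m)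
    (hR : 0 < R) (hL : 8 ≤ L) (hc : c ≤ 6 * (Real.sqrt 2 ^ i * R) / η)
    (hw : (2 - 3 * η) * (Real.sqrt 2 ^ i * R) ≤ w) :
    c / ((Real.exp 1 * (w * (1 / (L + i * Real.log 2))) / m) ^ m / (Real.exp 1 * m)) ≤
      6 * Real.exp 1 / η * m * R * (m * L / (Real.exp 1 * (2 - 3 * η) * R)) ^ m *
        (81 * Real.sqrt 2 / 128) ^ i := by
  have he := Real.exp_pos 1
  have hm0 : (0:ℝ) < m := by exact_mod_cast (by omega : 0 < m)
  have hr0 : 0 < Real.sqrt 2 := Real.sqrt_pos.2 two_pos
  have hrr : Real.sqrt 2 * Real.sqrt 2 = 2 := Real.mul_self_sqrt zero_le_two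
  have hr1 : 1 < Real.sqrt 2 := by
    rw [Real.lt_sqrt (by norm_num)]
    norm_num
  have hr98 : 9 / 8 < Real.sqrt 2 := by
    rw [Real.lt_sqrt (by norm_num)]
    norm_num
  set r : ℝ := Real.sqrt 2 with hr
  have hri : 0 < r ^ i := by positivity
  have h2η : 0 < 2 - 3 * η := by linarith
  have hl2 : 0 < Real.log 2 := Real.log_pos (by norm_num)
  have hl2' : Real.log 2 < 0.6931471808 := Real.log_two_lt_d9
  have hLi0 : 0 < L + i * Real.log 2 := by positivity
  have hLi : L + i * Real.log 2 ≤ L * (9 / 8) ^ i := by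
    have h1 := one_add_mul_le_pow (a := (1 / 8 : ℝ)) (by norm_num) i
    have h2 : (9 / 8 : ℝ) = 1 + 1 / 8 := by norm_num
    rw [h2]
    have h3 : (i : ℝ) * Real.log 2 ≤ L * (i * (1 / 8)) := by
      have : (0:ℝ) ≤ i := Nat.cast_nonneg i
      nlinarith
    nlinarith
  set Wd : ℝ := Real.exp 1 * ((2 - 3 * η) * (r ^ i * R) * (1 / (L * (9 / 8) ^ i))) / m with hWd
  have hWd0 : 0 < Wd := by positivity
  have h1 : Wd ≤ Real.exp 1 * (w * (1 / (L + i * Real.log 2))) / m := by
    apply div_le_div_of_nonneg_right _ hm0.le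
    apply mul_le_mul_of_nonneg_left _ he.le
    apply mul_le_mul hw _ (by positivity) (le_trans (by positivity) hw)
    exact one_div_le_one_div_of_le hLi0 hLi
  have h2 := pow_le_pow_left₀ hWd0.le h1 m
  have h3 : c / ((Real.exp 1 * (w * (1 / (L + i * Real.log 2))) / m) ^ m / (Real.exp 1 * m)) ≤
      (6 * (r ^ i * R) / η) / (Wd ^ m / (Real.exp 1 * m)) := by
    apply div_le_div₀ (by positivity) hc (by positivity)
    exact div_le_div_of_nonneg_right h2 (by positivity)
  refine h3.trans ?_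
  have h4 : (6 * (r ^ i * R) / η) / (Wd ^ m / (Real.exp 1 * m)) =
      6 * Real.exp 1 / η * m * R * (m * L / (Real.exp 1 * (2 - 3 * η) * R)) ^ m *
        (r ^ i * ((9 / 8) ^ i / r ^ i) ^ m) := by
    have e1 : Wd = (Real.exp 1 * (2 - 3 * η) * R / (m * L)) * (r ^ i / (9 / 8) ^ i) := by
      rw [hWd]
      field_simp
    have e2 : (1 : ℝ) / Wd ^ m = (m * L / (Real.exp 1 * (2 - 3 * η) * R)) ^ m *
        ((9 / 8) ^ i / r ^ i) ^ m := by
      rw [e1, ← mul_pow, one_div, ← inv_pow, mul_inv, inv_div, inv_div]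
    rw [div_div_eq_mul_div]
    calc 6 * (r ^ i * R) / η * (Real.exp 1 * m) / Wd ^ m
        = 6 * (r ^ i * R) / η * (Real.exp 1 * m) * (1 / Wd ^ m) := by ring
      _ = _ := by
          rw [e2]
          ring
  rw [h4]
  have hA : 0 ≤ 6 * Real.exp 1 / η * m * R * (m * L / (Real.exp 1 * (2 - 3 * η) * R)) ^ m := by
    have : 0 < L := by linarith
    positivity
  apply mul_le_mul_of_nonneg_left _ hA
  have hq0 : 0 ≤ (9 / 8 : ℝ) ^ i / r ^ i := by positivity
  have hq1 : (9 / 8 : ℝ) ^ i / r ^ i ≤ 1 := by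
    rw [div_le_one hri]
    exact pow_le_pow_left₀ (by norm_num) hr98.le i
  have h5 : ((9 / 8 : ℝ) ^ i / r ^ i) ^ m ≤ ((9 / 8 : ℝ) ^ i / r ^ i) ^ 2 :=
    pow_le_pow_of_le_one hq0 hq1 hm
  refine (mul_le_mul_of_nonneg_left h5 hri.le).trans (le_of_eq ?_)
  have h6 : r ^ i * ((9 / 8 : ℝ) ^ i / r ^ i) ^ 2 = (r * ((9 / 8) / r) ^ 2) ^ i := by
    rw [mul_pow, ← div_pow, ← pow_mul, ← pow_mul]
    congr 2
    ring
  rw [h6]
  congr 1
  rw [div_pow]
  have h7 : r ^ 2 = 2 := by rw [pow_two]; exact hrr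
  rw [h7]
  ring

/-- the probability that Andrica's inequality fails beyond `N`, upper bound -/
theorem andrica_upper {Ω : Type*} [MeasurableSpace Ω] (P : Measure Ω) [IsProbabilityMeasure P]
    {E : ℕ → Set Ω} (hE : ∀ n, MeasurableSet (E n)) {ko : ℕ}
    (hT : ∀ T : Finset ℕ, (∀ n ∈ T, 3 ≤ n ∧ T.card ≤ ko) →
      P (⋂ n ∈ T, E n) = ENNReal.ofReal (∏ n ∈ T, 1 / Real.log n))
    {η : ℝ} (hη : 0 < η) (hη1 : η ≤ 1 / 4) {m N : ℕ} (hm : 2 ≤ m) (hko : 2 * m ≤ ko)
    (hN : 3 ≤ N) (hN8 : 8 ≤ Real.log (4 * N)) (hN1 : 2 ≤ η * Real.sqrt N)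
    (hmN : (m : ℝ) ≤ η * Real.sqrt N) :
    P {ω | Fails {n | ω ∈ E n} N} ≤ ENNReal.ofReal (60 * Real.exp 1 / η * m * Real.sqrt N *
      (m * Real.log (4 * N) / (Real.exp 1 * (2 - 3 * η) * Real.sqrt N)) ^ m) := by
  classical
  have he := Real.exp_pos 1
  have hm0 : (0:ℝ) < m := by exact_mod_cast (by omega : 0 < m)
  have hr0 : 0 < Real.sqrt 2 := Real.sqrt_pos.2 two_pos
  have hr1 : 1 < Real.sqrt 2 := by
    rw [Real.lt_sqrt (by norm_num)]
    norm_num
  have hNr : (3:ℝ) ≤ N := by exact_mod_cast hN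
  set R : ℝ := Real.sqrt N with hR
  have hR0 : 0 < R := Real.sqrt_pos.2 (by linarith)
  have hR1 : 1 ≤ R := by rw [hR, Real.one_le_sqrt]; linarith
  have hRR : R * R = N := Real.mul_self_sqrt (by linarith)
  -- the scales
  set X : ℕ → ℕ := fun i => 2 ^ i * N with hX
  have hXs : ∀ i, Real.sqrt (X i) = Real.sqrt 2 ^ i * R := by
    intro i
    simp only [hX]
    push_cast
    have h2 : (2:ℝ) ^ i = (Real.sqrt 2 ^ i) ^ 2 := by
      rw [← pow_mul, mul_comm, pow_mul, Real.sq_sqrt zero_le_two]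
    rw [Real.sqrt_mul (by positivity), h2, Real.sqrt_sq (by positivity)]
  set S : ℕ → ℝ := fun i => Real.sqrt 2 ^ i * R with hS
  have hSR : ∀ i, R ≤ S i := fun i => le_mul_of_one_le_left hR0.le (one_le_pow₀ hr1.le)
  have hS0 : ∀ i, 0 < S i := fun i => lt_of_lt_of_le hR0 (hSR i)
  have hSS : ∀ i, S i * S i = X i := by
    intro i
    simp only [hS]
    rw [← hXs i]
    exact Real.mul_self_sqrt (Nat.cast_nonneg _)
  set h : ℕ → ℕ := fun i => ⌊η * S i⌋₊ with hh
  set w : ℕ → ℕ := fun i => ⌊(2 - 2 * η) * S i⌋₊ with hw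
  set A : ℕ → Finset ℕ := fun i => (range (2 * X i / h i + 2)).filter (fun k => X i ≤ k * h i)
    with hA
  have hh2 : ∀ i, 2 ≤ η * S i := fun i => hN1.trans (mul_le_mul_of_nonneg_left (hSR i) hη.le)
  have hh1 : ∀ i, 2 ≤ h i := fun i => Nat.le_floor (by exact_mod_cast hh2 i)
  have hhle : ∀ i, (h i : ℝ) ≤ η * S i := fun i =>
    Nat.floor_le (mul_nonneg hη.le (hS0 i).le)
  have hhge : ∀ i, η * S i / 2 ≤ h i := fun i => by
    have h1 := Nat.lt_floor_add_one (η * S i)
    have h2 := hh2 i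
    simp only [hh]
    linarith
  have hwle : ∀ i, (w i : ℝ) ≤ (2 - 2 * η) * S i := fun i =>
    Nat.floor_le (mul_nonneg (by linarith) (hS0 i).le)
  have hwge : ∀ i, (2 - 2 * η) * S i < w i + 1 := fun i => Nat.lt_floor_add_one _
  -- the measure of the bad events of one scale
  set s : ℕ → ℝ := fun i => 6 * Real.exp 1 / η * m * R *
    (m * Real.log (4 * N) / (Real.exp 1 * (2 - 3 * η) * R)) ^ m *
      (81 * Real.sqrt 2 / 128) ^ i with hs
  have hL0 : 0 < Real.log (4 * (N : ℝ)) := by linarith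
  have h2η : 0 < 2 - 3 * η := by linarith
  have hs0 : ∀ i, 0 ≤ s i := fun i => by
    simp only [hs]
    positivity
  have hP : ∀ i, P (⋃ k ∈ A i, ⋂ n ∈ Ioc (k * h i) (k * h i + w i), (E n)ᶜ) ≤
      ENNReal.ofReal (s i) := by
    intro i
    set Kq : ℝ := (Real.exp 1 * (((w i : ℝ) - m + 1) * (1 / (Real.log (4 * N) +
      i * Real.log 2))) / m) ^ m / (Real.exp 1 * m) with hKq
    have hl2 : 0 < Real.log 2 := Real.log_pos (by norm_num)
    have hLi0 : 0 < Real.log (4 * (N : ℝ)) + i * Real.log 2 := by positivity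
    have hmS : (m : ℝ) ≤ η * S i := hmN.trans (mul_le_mul_of_nonneg_left (hSR i) hη.le)
    have hwm : (2 - 3 * η) * S i ≤ (w i : ℝ) - m + 1 := by
      have := hwge i
      have e1 : (2 - 3 * η) * S i = (2 - 2 * η) * S i - η * S i := by ring
      rw [e1]
      linarith
    have hwm0 : 0 < (w i : ℝ) - m + 1 := lt_of_lt_of_le (mul_pos h2η (hS0 i)) hwm
    have hmw : m ≤ w i := by
      apply Nat.le_floor
      nlinarith [hS0 i]
    have hK0 : 0 < Kq := by positivity
    refine (measure_biUnion_finset_le _ _).trans ?_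
    have h1 : ∑ k ∈ A i, P (⋂ n ∈ Ioc (k * h i) (k * h i + w i), (E n)ᶜ) ≤
        ∑ k ∈ A i, ENNReal.ofReal (1 / Kq) := by
      refine sum_le_sum fun k hk => ?_
      simp only [hA, mem_filter, mem_range] at hk
      have hXN : N ≤ X i := Nat.le_mul_of_pos_left N (by positivity)
      have hn3 : ∀ n ∈ Ioc (k * h i) (k * h i + w i), 3 ≤ n := by
        intro n hn
        rw [mem_Ioc] at hn
        omega
      have hnlog : ∀ n ∈ Ioc (k * h i) (k * h i + w i),
          Real.log n ≤ Real.log (4 * N) + i * Real.log 2 := by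
        intro n hn
        have h3 := hn3 n hn
        rw [mem_Ioc] at hn
        obtain ⟨hn1, hn2⟩ := hn
        have h4 : k * h i ≤ 2 * X i + h i := by
          have h5 : k ≤ 2 * X i / h i + 1 := by omega
          calc k * h i ≤ (2 * X i / h i + 1) * h i := Nat.mul_le_mul_right _ h5
            _ = 2 * X i / h i * h i + h i := by ring
            _ ≤ 2 * X i + h i := by
                have := Nat.div_mul_le_self (2 * X i) (h i)
                omega
        have h5 : (n : ℝ) ≤ 4 * X i := by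
          have h6 : (n : ℝ) ≤ 2 * X i + h i + w i := by
            exact_mod_cast (by omega : n ≤ 2 * X i + h i + w i)
          have h7 := hhle i
          have h8 := hwle i
          have h9 : (h i : ℝ) + w i ≤ 2 * S i := by
            have : (h i : ℝ) + w i ≤ η * S i + (2 - 2 * η) * S i := by linarith
            nlinarith [hS0 i]
          have h10 : 1 ≤ S i := hR1.trans (hSR i)
          have h11 : 2 * S i ≤ 2 * X i := by
            rw [← hSS i]
            nlinarith
          linarith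
        have h6 := Real.log_le_log (by exact_mod_cast (by omega : 0 < n)) h5
        refine h6.trans (le_of_eq ?_)
        have h7 : (4:ℝ) * X i = 4 * N * 2 ^ i := by
          simp only [hX]
          push_cast
          ring
        rw [h7, Real.log_mul (by positivity) (by positivity), Real.log_pow]
      apply window_upper P hE (m := m) (p := cp) (fun n _ => cp_nonneg n)
      · intro n hn
        have h3 := hn3 n hn
        unfold cp
        rw [if_pos h3, div_lt_one (by linarith [one_lt_log h3])]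
        exact one_lt_log h3
      · intro T hTW hTc
        have hn3' : ∀ n ∈ T, 3 ≤ n ∧ T.card ≤ ko :=
          fun n hn => ⟨hn3 n (hTW hn), hTc.trans hko⟩
        rw [hT T hn3']
        congr 1
        refine prod_congr rfl fun n hn => ?_
        unfold cp
        rw [if_pos (hn3' n hn).1]
      · exact hK0
      · refine (choose_mul_ge (by omega) hmw (by positivity)).trans ?_
        have h1 := sum_ge_choose (I := Ioc (k * h i) (k * h i + w i)) (m := m)
          (r := fun n => cp n / (1 - cp n)) (ρ := 1 / (Real.log (4 * N) + i * Real.log 2))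
          (by positivity) (by
            intro n hn
            have h3 := hn3 n hn
            have hlog := one_lt_log h3
            have h5 : cp n = 1 / Real.log n := by
              unfold cp
              rw [if_pos h3]
            have h6 : cp n < 1 := by
              rw [h5, div_lt_one (by linarith)]
              exact hlog
            have h7 : cp n ≤ cp n / (1 - cp n) := by
              rw [le_div_iff₀ (by linarith)]
              have := cp_nonneg n
              nlinarith
            refine le_trans ?_ h7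
            rw [h5]
            exact one_div_le_one_div_of_le (by linarith) (hnlog n hn))
        rw [Nat.card_Ioc, Nat.add_sub_cancel_left] at h1
        exact h1
    refine h1.trans ?_
    rw [sum_const, nsmul_eq_mul]
    have h2 : (((A i).card : ℕ) : ENNReal) = ENNReal.ofReal ((A i).card : ℝ) :=
      (ENNReal.ofReal_natCast _).symm
    rw [h2, ← ENNReal.ofReal_mul (Nat.cast_nonneg _)]
    apply ENNReal.ofReal_le_ofReal
    rw [mul_one_div]
    apply scale_bound hη hη1 hm hR0 hN8 _ hwm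
    have h3 : ((A i).card : ℝ) ≤ ((2 * X i / h i : ℕ) : ℝ) + 2 := by
      have : (A i).card ≤ 2 * X i / h i + 2 := by
        simp only [hA]
        refine (card_filter_le _ _).trans ?_
        rw [card_range]
      exact_mod_cast this
    have h4 : ((2 * X i / h i : ℕ) : ℝ) ≤ ((2 * X i : ℕ) : ℝ) / (h i : ℝ) := Nat.cast_div_le
    have h5 : ((2 * X i : ℕ) : ℝ) / (h i : ℝ) ≤ 4 * S i / η := by
      push_cast
      rw [← hSS i, div_le_div_iff₀ (by exact_mod_cast (by have := hh1 i; omega : 0 < h i)) hη]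
      have h6 := hhge i
      have h7 := hS0 i
      nlinarith
    have h6 : 2 ≤ 2 * S i / η := by
      rw [le_div_iff₀ hη]
      have h7 : 1 ≤ S i := hR1.trans (hSR i)
      nlinarith
    have h7 : 6 * (Real.sqrt 2 ^ i * R) / η = 4 * S i / η + 2 * S i / η := by
      simp only [hS]
      ring
    rw [h7]
    linarith
  -- the union
  have hsub : {ω | Fails {n | ω ∈ E n} N} ⊆
      ⋃ i, ⋃ k ∈ A i, ⋂ n ∈ Ioc (k * h i) (k * h i + w i), (E n)ᶜ := by
    intro ω hω
    obtain ⟨a, ha, hc⟩ := fails_window hω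
    have hN0 : 0 < N := by omega
    set i : ℕ := Nat.log 2 (a / N) with hi
    have haN : a / N ≠ 0 := by
      have := Nat.div_pos ha hN0
      omega
    have h1 : X i ≤ a := by
      have h2 : 2 ^ i ≤ a / N := Nat.pow_log_le_self 2 haN
      calc X i = 2 ^ i * N := rfl
        _ ≤ a / N * N := Nat.mul_le_mul_right _ h2
        _ ≤ a := Nat.div_mul_le_self a N
    have h2 : a < 2 * X i := by
      have h3 : a / N < 2 ^ (i + 1) := Nat.lt_pow_succ_log_self (by norm_num) _
      have h4 : a < 2 ^ (i + 1) * N := (Nat.div_lt_iff_lt_mul hN0).1 h3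
      have h5 : 2 ^ (i + 1) * N = 2 * X i := by
        simp only [hX]
        ring
      omega
    set q : ℕ := a / h i + 1 with hq
    have hhi := hh1 i
    have hq1 : a < q * h i := by
      rw [hq, mul_comm]
      exact Nat.lt_mul_div_succ a (by omega)
    have hq2 : q * h i ≤ a + h i := by
      rw [hq, add_mul, one_mul]
      have := Nat.div_mul_le_self a (h i)
      omega
    simp only [Set.mem_iUnion]
    refine ⟨i, q, ?_, ?_⟩
    · simp only [hA, mem_filter, mem_range]
      refine ⟨?_, by omega⟩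
      have h3 : a / h i ≤ 2 * X i / h i := Nat.div_le_div_right h2.le
      omega
    · simp only [Set.mem_iInter, Set.mem_compl_iff]
      intro n hn
      rw [mem_Ioc] at hn
      apply hc n (by omega)
      have h3 : (n : ℝ) ≤ a + h i + w i := by exact_mod_cast (by omega : n ≤ a + h i + w i)
      have h4 := hhle i
      have h5 := hwle i
      have h6 : S i ≤ Real.sqrt a := by
        have h7 : S i = Real.sqrt (X i) := (hXs i).symm
        rw [h7]
        exact Real.sqrt_le_sqrt (by exact_mod_cast h1)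
      have h7 := hS0 i
      nlinarith
  refine (measure_mono hsub).trans ((measure_iUnion_le _).trans ?_)
  refine (ENNReal.tsum_le_tsum hP).trans ?_
  have hq0 : 0 ≤ 81 * Real.sqrt 2 / 128 := by positivity
  have hq1 : 81 * Real.sqrt 2 / 128 ≤ 9 / 10 := by
    have h1 : Real.sqrt 2 ≤ 1.4143 := by
      rw [Real.sqrt_le_iff]
      norm_num
    linarith
  have hq2 : 81 * Real.sqrt 2 / 128 < 1 := by linarith
  have hsum : Summable s := (summable_geometric_of_lt_one hq0 hq2).mul_left _
  rw [← ENNReal.ofReal_tsum_of_nonneg hs0 hsum]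
  apply ENNReal.ofReal_le_ofReal
  simp only [hs]
  rw [tsum_mul_left, tsum_geometric_of_lt_one hq0 hq2]
  have h1 : (1 - 81 * Real.sqrt 2 / 128)⁻¹ ≤ 10 := by
    rw [inv_le_comm₀ (by linarith) (by norm_num)]
    linarith
  have h2 : 0 ≤ 6 * Real.exp 1 / η * m * R *
      (m * Real.log (4 * N) / (Real.exp 1 * (2 - 3 * η) * R)) ^ m := by positivity
  refine (mul_le_mul_of_nonneg_left h1 h2).trans (le_of_eq ?_)
  ring

end Q167.AN
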