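import Pool.Agent.Q167.AN.A

/-! # Andrica's inequality for random primes with limited independence: models -/

set_option autoImplicit false

namespace Q167.AN

open Finset MeasureTheory Filter Topology Q198.CI Q167.LI Q167.SQ

lemma fails_of {A : Set ℕ} {N n a b : ℕ} (ha : a ∈ A) (haN : N ≤ a) (han : a ≤ n ^ 2)
    (hb : b ∈ A) (hbn : n ^ 2 < b) (hW : ∀ y, n ^ 2 < y → y ≤ n ^ 2 + 2 * n → y ∉ A) :
    Fails A N := by
  classical
  set a' : ℕ := Nat.findGreatest (fun x => x ∈ A) (n ^ 2) with ha'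
  have h1 : a ≤ a' := Nat.le_findGreatest han ha
  have h2 : a' ∈ A := Nat.findGreatest_spec (P := fun x => x ∈ A) han ha
  have h3 : a' ≤ n ^ 2 := Nat.findGreatest_le _
  have hex : ∃ b, b ∈ A ∧ n ^ 2 < b := ⟨b, hb, hbn⟩
  set b' : ℕ := Nat.find hex with hb'
  have h4 : b' ∈ A ∧ n ^ 2 < b' := Nat.find_spec hex
  have h5 : (n + 1) ^ 2 ≤ b' := by
    by_contra hcon
    have h6 : (n + 1) ^ 2 = n ^ 2 + 2 * n + 1 := by ring
    exact hW b' h4.2 (by omega) h4.1
  refine ⟨a', h2, b', h4.1, haN.trans h1, by omega, ?_, ?_⟩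
  · rintro c hc ⟨h6, h7⟩
    rcases le_or_gt c (n ^ 2) with h8 | h8
    · have := Nat.le_findGreatest (P := fun x => x ∈ A) h8 hc
      omega
    · exact Nat.find_min hex h7 ⟨hc, h8⟩
  · have h6 : (n : ℝ) + 1 ≤ Real.sqrt b' := by
      apply Real.le_sqrt_of_sq_le
      exact_mod_cast h5
    have h7 : Real.sqrt a' ≤ n := by
      rw [Real.sqrt_le_iff]
      exact ⟨Nat.cast_nonneg _, by exact_mod_cast h3⟩
    linarith

/-- the model: special windows after some squares, and everything else independent -/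
theorem squares_model {n₀ n₁ k K₂ : ℕ} {δ : ℝ} (hK₂ : k ≤ K₂) (_hδ0 : 0 ≤ δ)
    (hlaw : ∀ n, n₀ ≤ n → n < n₁ →
      ∃ w : Finset ℕ → ℝ, IsLaw (Ioc (n ^ 2) (n ^ 2 + 2 * n)) k cp w ∧ δ ≤ w ∅) :
    ∃ (Ω : Type) (_ : MeasurableSpace Ω) (P : Measure Ω) (_ : IsProbabilityMeasure P)
      (E : ℕ → Set Ω), (∀ n, MeasurableSet (E n)) ∧
      (∀ T : Finset ℕ, (∀ n ∈ T, T.card ≤ k) →
        P (⋂ n ∈ T, E n) = ENNReal.ofReal (∏ n ∈ T, cp n)) ∧
      (∀ T : Finset ℕ, (∀ n ∈ T, n ≤ n₀ ^ 2 ∧ T.card ≤ K₂) →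
        P (⋂ n ∈ T, E n) = ENNReal.ofReal (∏ n ∈ T, cp n)) ∧
      P {ω | ∀ n, n₀ ≤ n → n < n₁ → ∃ y ∈ Ioc (n ^ 2) (n ^ 2 + 2 * n), ω ∈ E y} ≤
        ENNReal.ofReal (Real.exp (-((n₁ - n₀ : ℕ) : ℝ) * δ)) := by
  classical
  set sp : ℕ → Prop := fun y => n₀ ≤ Nat.sqrt y ∧ Nat.sqrt y < n₁ ∧ Nat.sqrt y ^ 2 < y with hsp
  set b : ℕ → ℕ ⊕ ℕ := fun y => if sp y then Sum.inl (Nat.sqrt y) else Sum.inr y with hb
  set I : ℕ ⊕ ℕ → Finset ℕ := fun β => match β with
    | Sum.inl n => if n₀ ≤ n ∧ n < n₁ then Ioc (n ^ 2) (n ^ 2 + 2 * n) else ∅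
    | Sum.inr y => if sp y then ∅ else {y} with hI
  have hsqrt : ∀ n y, n ^ 2 < y → y ≤ n ^ 2 + 2 * n → Nat.sqrt y = n := by
    intro n y h1 h2
    symm
    rw [Nat.eq_sqrt']
    constructor
    · exact h1.le
    · have : (n + 1) ^ 2 = n ^ 2 + 2 * n + 1 := by ring
      omega
  have hbI : ∀ y β, y ∈ I β ↔ b y = β := by
    intro y β
    rcases β with n | z
    · simp only [hI, hb]
      constructor
      · intro h
        split_ifs at h with h1
        · rw [mem_Ioc] at h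
          have h2 := hsqrt n y h.1 h.2
          have h3 : sp y := by
            simp only [hsp, h2]
            exact ⟨h1.1, h1.2, h.1⟩
          rw [if_pos h3, h2]
        · simp at h
      · intro h
        split_ifs at h with h1
        have h2 : Nat.sqrt y = n := Sum.inl_injective h
        simp only [hsp, h2] at h1
        rw [if_pos ⟨h1.1, h1.2.1⟩, mem_Ioc]
        refine ⟨h1.2.2, ?_⟩
        have h3 := Nat.lt_succ_sqrt' y
        rw [h2] at h3
        have h4 : (n + 1) ^ 2 = n ^ 2 + 2 * n + 1 := by ring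
        have h5 : y < (n + 1) ^ 2 := h3
        omega
    · simp only [hI, hb]
      constructor
      · intro h
        split_ifs at h with h1
        · simp at h
        · rw [mem_singleton] at h
          subst h
          rw [if_neg h1]
      · intro h
        split_ifs at h with h1
        have h3 : y = z := Sum.inr_injective h
        subst h3
        rw [if_neg h1, mem_singleton]
  set K' : ℕ ⊕ ℕ → ℕ := fun β => match β with
    | Sum.inl _ => k
    | Sum.inr _ => K₂ with hK'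
  have hex : ∀ β, ∃ w : Finset ℕ → ℝ, IsLaw (I β) (K' β) cp w ∧
      ∀ n, β = Sum.inl n → n₀ ≤ n → n < n₁ → δ ≤ w ∅ := by
    intro β
    rcases β with n | y
    · by_cases hn : n₀ ≤ n ∧ n < n₁
      · obtain ⟨w, hw1, hw2⟩ := hlaw n hn.1 hn.2
        refine ⟨w, ?_, ?_⟩
        · simp only [hI, hK', if_pos hn]
          exact hw1
        · intro n' _ _ _
          exact hw2
      · refine ⟨_, law_prod _ cp_nonneg cp_le_one _, ?_⟩
        intro n' h h1 h2
        have h3 : n = n' := Sum.inl_injective h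
        subst h3
        exact absurd ⟨h1, h2⟩ hn
    · refine ⟨_, law_prod _ cp_nonneg cp_le_one _, ?_⟩
      intro n' h _ _
      cases h
  choose w hw1 hw2 using hex
  obtain ⟨P, hP, E, F, hE, hF, hT, hFE, hs⟩ := glue b I hbI K' cp_nonneg w hw1
  refine ⟨_, inferInstance, P, hP, E, hE, ?_, ?_, ?_⟩
  · intro T hT'
    apply hT
    intro n hn
    have h1 := hT' n hn
    rcases h2 : b n with n' | y
    · exact h1
    · exact h1.trans hK₂
  · intro T hT'
    apply hT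
    intro n hn
    obtain ⟨h1, h2⟩ := hT' n hn
    have h3 : ¬ sp n := by
      simp only [hsp]
      rintro ⟨h4, h5, h6⟩
      have h7 : n₀ ^ 2 ≤ Nat.sqrt n ^ 2 := Nat.pow_le_pow_left h4 2
      omega
    simp only [hb, if_neg h3, hK']
    exact h2
  · set s : Finset (ℕ ⊕ ℕ) := (Ico n₀ n₁).image Sum.inl with hsd
    have hsub : {ω | ∀ n, n₀ ≤ n → n < n₁ → ∃ y ∈ Ioc (n ^ 2) (n ^ 2 + 2 * n), ω ∈ E y} ⊆
        ⋂ β ∈ s, (F β)ᶜ := by
      intro ω hω
      simp only [Set.mem_iInter, Set.mem_compl_iff]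
      intro β hβ hF'
      rw [hsd, mem_image] at hβ
      obtain ⟨n, hn, rfl⟩ := hβ
      rw [mem_Ico] at hn
      obtain ⟨y, hy, hyE⟩ := hω n hn.1 hn.2
      apply hFE (Sum.inl n) ω hF' y _ hyE
      simp only [hI, if_pos hn]
      exact hy
    refine (measure_mono hsub).trans ?_
    rw [hs, hsd, prod_image (by
      intro x _ y _ h
      exact Sum.inl_injective h)]
    have h1 : ∏ n ∈ Ico n₀ n₁, ENNReal.ofReal (1 - w (Sum.inl n) ∅) ≤
        ∏ _n ∈ Ico n₀ n₁, ENNReal.ofReal (Real.exp (-δ)) := by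
      refine prod_le_prod' fun n hn => ENNReal.ofReal_le_ofReal ?_
      rw [mem_Ico] at hn
      have h3 := hw2 (Sum.inl n) n rfl hn.1 hn.2
      have h4 := Real.add_one_le_exp (-δ)
      linarith
    refine h1.trans (le_of_eq ?_)
    rw [prod_const, Nat.card_Ico, ← ENNReal.ofReal_pow (Real.exp_pos _).le, ← Real.exp_nat_mul]
    congr 2
    ring

/-- no element in a long interval, in terms of the order of independence -/
lemma empty_le {Ω : Type*} [MeasurableSpace Ω] (P : Measure Ω) [IsProbabilityMeasure P]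
    {E : ℕ → Set Ω} (hE : ∀ n, MeasurableSet (E n)) {I : Finset ℕ} {m : ℕ} (hm : 1 ≤ m)
    (hmI : m ≤ I.card) (hI : ∀ n ∈ I, 3 ≤ n)
    (hT : ∀ T ⊆ I, T.card ≤ 2 * m → P (⋂ n ∈ T, E n) = ENNReal.ofReal (∏ n ∈ T, cp n))
    {L : ℝ} (hL : 0 < L) (hIL : ∀ n ∈ I, Real.log n ≤ L) :
    P (⋂ n ∈ I, (E n)ᶜ) ≤ ENNReal.ofReal (1 / ((Real.exp 1 * (((I.card : ℝ) - m + 1) *
      (1 / L)) / m) ^ m / (Real.exp 1 * m))) := by
  have hm0 : (0:ℝ) < m := by exact_mod_cast hm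
  have hmI' : (m : ℝ) ≤ I.card := by exact_mod_cast hmI
  have h1 : 0 < (I.card : ℝ) - m + 1 := by linarith
  apply window_upper P hE (fun n _ => cp_nonneg n) _ hT (by positivity)
  · refine (choose_mul_ge hm hmI (by positivity)).trans ?_
    apply sum_ge_choose (by positivity)
    intro n hn
    have h3 := hI n hn
    have hlog := one_lt_log h3
    have h5 : cp n = 1 / Real.log n := by
      unfold cp
      rw [if_pos h3]
    have h6 : cp n < 1 := by
      rw [h5, div_lt_one (by linarith)]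
      exact hlog
    have h7 : cp n ≤ cp n / (1 - cp n) := by
      rw [le_div_iff₀ (by linarith)]
      have := cp_nonneg n
      nlinarith
    refine le_trans ?_ h7
    rw [h5]
    exact one_div_le_one_div_of_le (by linarith) (hIL n hn)
  · intro n hn
    have h3 := hI n hn
    unfold cp
    rw [if_pos h3, div_lt_one (by linarith [one_lt_log h3])]
    exact one_lt_log h3

/-- in every model of order at least two the random set is infinite -/
lemma ae_infinite {Ω : Type*} [MeasurableSpace Ω] (P : Measure Ω) [IsProbabilityMeasure P]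
    {E : ℕ → Set Ω} (hE : ∀ n, MeasurableSet (E n)) {k : ℕ} (hk : 2 ≤ k)
    (hT : ∀ T : Finset ℕ, (∀ n ∈ T, 3 ≤ n ∧ T.card ≤ k) →
      P (⋂ n ∈ T, E n) = ENNReal.ofReal (∏ n ∈ T, 1 / Real.log n)) :
    ∀ᵐ ω ∂P, ∀ Y : ℕ, ∃ b, Y < b ∧ ω ∈ E b := by
  have hl2 : 0 < Real.log 2 := Real.log_pos (by norm_num)
  have hcard : ∀ n : ℕ, (Ioc (2 ^ n) (2 ^ (n + 1))).card = 2 ^ n := by
    intro n
    rw [Nat.card_Ioc, pow_succ]
    omega
  have hs1 : Summable fun n : ℕ => Real.log 2 * ((n : ℝ) ^ 1 * (1 / 2 : ℝ) ^ n) := by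
    have h0 : Summable fun n : ℕ => (n : ℝ) ^ 1 * (1 / 2 : ℝ) ^ n :=
      summable_pow_mul_geometric_of_norm_lt_one (R := ℝ) 1 (r := 1 / 2) (by
        rw [Real.norm_of_nonneg (by norm_num)]
        norm_num)
    exact h0.mul_left (Real.log 2)
  have hs2 : Summable fun n : ℕ => Real.log 2 * (1 / 2 : ℝ) ^ n :=
    (summable_geometric_of_lt_one (by norm_num) (by norm_num)).mul_left (Real.log 2)
  have h1 := places_upper P hE (κ := fun _ => k) hT (W := fun n => Ioc (2 ^ n) (2 ^ (n + 1)))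
    (m := fun _ => 1) (L := fun n => ((n : ℝ) + 1) * Real.log 2)
    (s := fun n => Real.log 2 * ((n : ℝ) ^ 1 * (1 / 2) ^ n) + Real.log 2 * (1 / 2) ^ n)
    (by
      filter_upwards [eventually_ge_atTop 2] with n hn
      rw [hcard]
      refine ⟨le_rfl, Nat.one_le_two_pow, by positivity, ?_, ?_⟩
      · intro y hy
        rw [mem_Ioc] at hy
        have h4 : 4 ≤ 2 ^ n := by
          calc 4 = 2 ^ 2 := by norm_num
            _ ≤ 2 ^ n := Nat.pow_le_pow_right (by norm_num) hn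
        refine ⟨by omega, ?_, by omega⟩
        have h5 : (y : ℝ) ≤ 2 ^ (n + 1) := by exact_mod_cast hy.2
        have h6 := Real.log_le_log (by exact_mod_cast (by omega : 0 < y)) h5
        rw [Real.log_pow] at h6
        push_cast at h6
        exact h6
      · apply le_of_eq
        rw [pow_one, pow_one, one_div_pow]
        push_cast
        have he := Real.exp_pos 1
        field_simp
        ring)
    (hs1.add hs2)
  filter_upwards [h1] with ω hω
  intro Y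
  obtain ⟨n₀, hn₀⟩ := eventually_atTop.1 hω
  obtain ⟨b, hb, hbE⟩ := hn₀ (max n₀ Y) (le_max_left _ _)
  rw [mem_Ioc] at hb
  refine ⟨b, ?_, hbE⟩
  have h2 : Y ≤ max n₀ Y := le_max_right _ _
  have h3 : max n₀ Y < 2 ^ max n₀ Y := Nat.lt_two_pow_self
  omega

/-- the lower bound for the probability of a failure in the model -/
theorem andrica_lower {N n₀ n₁ k j : ℕ} {δ L : ℝ} (hN : 3 ≤ N)
    (hk : 2 ≤ k) (hδ0 : 0 ≤ δ)
    (hlaw : ∀ n, n₀ ≤ n → n < n₁ →
      ∃ w : Finset ℕ → ℝ, IsLaw (Ioc (n ^ 2) (n ^ 2 + 2 * n)) k cp w ∧ δ ≤ w ∅)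
    (hj : 1 ≤ j) (hjN : j ≤ n₀ ^ 2 + 1 - N) (hL : Real.log ((n₀ ^ 2 : ℕ) : ℝ) ≤ L)
    (hL0 : 0 < L) :
    ∃ (Ω : Type) (_ : MeasurableSpace Ω) (P : Measure Ω) (_ : IsProbabilityMeasure P)
      (E : ℕ → Set Ω), (∀ n, MeasurableSet (E n)) ∧
      (∀ T : Finset ℕ, (∀ n ∈ T, 3 ≤ n ∧ T.card ≤ k) →
        P (⋂ n ∈ T, E n) = ENNReal.ofReal (∏ n ∈ T, 1 / Real.log n)) ∧
      ENNReal.ofReal (1 - Real.exp (-((n₁ - n₀ : ℕ) : ℝ) * δ) -
        1 / ((Real.exp 1 * ((((n₀ ^ 2 + 1 - N : ℕ) : ℝ) - j + 1) * (1 / L)) / j) ^ j /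
          (Real.exp 1 * j))) ≤ P {ω | Fails {n | ω ∈ E n} N} := by
  classical
  obtain ⟨Ω, mΩ, P, hP, E, hE, hT, hT₂, hB⟩ := squares_model (K₂ := max k (2 * j))
    (le_max_left _ _) hδ0 hlaw
  have hT' : ∀ T : Finset ℕ, (∀ n ∈ T, 3 ≤ n ∧ T.card ≤ k) →
      P (⋂ n ∈ T, E n) = ENNReal.ofReal (∏ n ∈ T, 1 / Real.log n) := by
    intro T hT'
    rw [hT T fun n hn => (hT' n hn).2]
    congr 1
    refine prod_congr rfl fun n hn => ?_
    unfold cp
    rw [if_pos (hT' n hn).1]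
  refine ⟨Ω, mΩ, P, hP, E, hE, hT', ?_⟩
  have hinf := ae_infinite P hE hk hT'
  set B₁ : Set Ω := {ω | ∀ n, n₀ ≤ n → n < n₁ → ∃ y ∈ Ioc (n ^ 2) (n ^ 2 + 2 * n), ω ∈ E y}
  set B₂ : Set Ω := ⋂ n ∈ Icc N (n₀ ^ 2), (E n)ᶜ with hB₂
  set B₃ : Set Ω := {ω | ¬ ∀ Y : ℕ, ∃ b, Y < b ∧ ω ∈ E b}
  have hcov : (Set.univ : Set Ω) ⊆ {ω | Fails {n | ω ∈ E n} N} ∪ B₁ ∪ B₂ ∪ B₃ := by
    intro ω _
    by_contra hcon
    simp only [Set.mem_union, not_or] at hcon
    obtain ⟨⟨⟨h1, h2⟩, h3⟩, h4⟩ := hcon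
    have h2' : ∃ n, n₀ ≤ n ∧ n < n₁ ∧ ∀ y ∈ Ioc (n ^ 2) (n ^ 2 + 2 * n), ω ∉ E y := by
      by_contra hc
      push Not at hc
      exact h2 hc
    obtain ⟨n, hn1, hn2, hn3⟩ := h2'
    have h3' : ∃ a, N ≤ a ∧ a ≤ n₀ ^ 2 ∧ ω ∈ E a := by
      by_contra hc
      push Not at hc
      apply h3
      simp only [hB₂, Set.mem_iInter, Set.mem_compl_iff, mem_Icc]
      exact fun a ha => hc a ha.1 ha.2
    obtain ⟨a, ha1, ha2, ha3⟩ := h3'
    have h4' : ∀ Y : ℕ, ∃ b, Y < b ∧ ω ∈ E b := by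
      by_contra hc
      exact h4 hc
    obtain ⟨b, hb1, hb2⟩ := h4' (n ^ 2)
    apply h1
    exact fails_of (a := a) (b := b) (n := n) ha3 ha1 (ha2.trans (Nat.pow_le_pow_left hn1 2)) hb2
      hb1 (fun y hy1 hy2 => hn3 y (mem_Ioc.2 ⟨hy1, hy2⟩))
  have h3 : P B₃ = 0 := hinf
  have h2 : P B₂ ≤ ENNReal.ofReal (1 / ((Real.exp 1 * ((((n₀ ^ 2 + 1 - N : ℕ) : ℝ) - j + 1) *
      (1 / L)) / j) ^ j / (Real.exp 1 * j))) := by
    have hc : (Icc N (n₀ ^ 2)).card = n₀ ^ 2 + 1 - N := Nat.card_Icc _ _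
    have h5 := empty_le P hE (I := Icc N (n₀ ^ 2)) hj (by rw [hc]; exact hjN) (by
        intro n hn
        rw [mem_Icc] at hn
        omega) (by
        intro T hTI hTc
        apply hT₂
        intro n hn
        have := mem_Icc.1 (hTI hn)
        exact ⟨this.2, hTc.trans (le_max_right _ _)⟩) hL0 (by
        intro n hn
        rw [mem_Icc] at hn
        refine le_trans ?_ hL
        apply Real.log_le_log (by exact_mod_cast (by omega : 0 < n))
        exact_mod_cast hn.2)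
    rw [hc] at h5
    exact h5
  have h6 : (1 : ENNReal) ≤ P {ω | Fails {n | ω ∈ E n} N} +
      ENNReal.ofReal (Real.exp (-((n₁ - n₀ : ℕ) : ℝ) * δ)) +
      ENNReal.ofReal (1 / ((Real.exp 1 * ((((n₀ ^ 2 + 1 - N : ℕ) : ℝ) - j + 1) *
      (1 / L)) / j) ^ j / (Real.exp 1 * j))) := by
    calc (1 : ENNReal) = P Set.univ := measure_univ.symm
      _ ≤ P ({ω | Fails {n | ω ∈ E n} N} ∪ B₁ ∪ B₂ ∪ B₃) := measure_mono hcov
      _ ≤ P {ω | Fails {n | ω ∈ E n} N} + P B₁ + P B₂ + P B₃ := by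
          refine (measure_union_le _ _).trans ?_
          apply add_le_add _ le_rfl
          refine (measure_union_le _ _).trans ?_
          apply add_le_add _ le_rfl
          exact measure_union_le _ _
      _ ≤ _ := by
          rw [h3, add_zero]
          exact add_le_add (add_le_add le_rfl hB) h2
  rw [ENNReal.ofReal_sub _ (by
    have hj0 : (0:ℝ) < j := by exact_mod_cast hj
    have : (j : ℝ) ≤ ((n₀ ^ 2 + 1 - N : ℕ) : ℝ) := by exact_mod_cast hjN
    have h7 : 0 < ((n₀ ^ 2 + 1 - N : ℕ) : ℝ) - j + 1 := by linarith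
    positivity), ENNReal.ofReal_sub _ (Real.exp_pos _).le, ENNReal.ofReal_one]
  rw [tsub_le_iff_right, tsub_le_iff_right]
  refine h6.trans (le_of_eq ?_)
  ring

end Q167.AN
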