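import Pool.Agent.Q167.AN.B

/-! # Andrica's inequality for random primes with limited independence: laws of blocks -/

set_option autoImplicit false

namespace Q167.AN

open Finset MeasureTheory Filter Topology Q198.CI Q167.LI Q167.SQ

/-- the mass at the empty set for a fixed order -/
lemma mass_fixed {I : Finset ℕ} {m : ℕ} {L : ℝ} (hm : 1 ≤ m) (hL4 : 4 ≤ L)
    (hcase : 16 * m * L ≤ I.card) (hI : ∀ y ∈ I, 3 ≤ y ∧ L ≤ Real.log y) :
    ∃ w : Finset ℕ → ℝ, IsLaw I (2 * m + 1) cp w ∧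
      1 / (16 * Real.exp 1) * (L / (2 * I.card)) ^ m ≤ w ∅ := by
  have he := Real.exp_pos 1
  have hm0 : (0:ℝ) < m := by exact_mod_cast hm
  have hm1 : (1:ℝ) ≤ m := by exact_mod_cast hm
  set W : ℕ := I.card with hW
  have h16 : 64 * (m : ℝ) ≤ 16 * m * L := by nlinarith
  have hwm : 64 * m ≤ W := by
    have : 64 * (m : ℝ) ≤ W := h16.trans hcase
    exact_mod_cast this
  have hw0 : (0:ℝ) < W := by exact_mod_cast (by omega : 0 < W)
  obtain ⟨N, hN⟩ : ∃ N : ℕ, W = N + 1 := ⟨W - 1, by omega⟩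
  have hNr : (N : ℝ) - m + 1 = (W : ℝ) - m := by
    rw [hN]
    push_cast
    ring
  have hhalf : (W : ℝ) / 2 ≤ (W : ℝ) - m := by
    have : 64 * (m : ℝ) ≤ W := h16.trans hcase
    linarith
  have hLinv : 1 / L ≤ 1 / 4 := one_div_le_one_div_of_le (by norm_num) hL4
  have hη : m / ((N : ℝ) - m + 1) ≤ 1 / 4 := by
    rw [hNr, div_le_iff₀ (by linarith)]
    linarith
  have hη0 : 0 ≤ m / ((N : ℝ) - m + 1) := by
    rw [hNr]
    apply div_nonneg hm0.le
    linarith
  set D : ℝ := Real.exp 1 * (2 * W / L) ^ m with hD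
  have hbase : 1 ≤ 2 * (W : ℝ) / L := by
    rw [le_div_iff₀ (by linarith), one_mul]
    nlinarith
  have hD1 : 1 ≤ D := by
    rw [hD]
    have h1 : (1:ℝ) ≤ Real.exp 1 := Real.one_le_exp (by norm_num)
    have h2 : (1:ℝ) ≤ (2 * W / L) ^ m := one_le_pow₀ hbase
    nlinarith
  have hKK : KK (N + 1) m (1 / (L - 1)) ≤ D := by
    have hL1 : 0 < L - 1 := by linarith
    have ht0 : 0 < (L - 1) / (W : ℝ) := by positivity
    have ht1 : (L - 1) / (W : ℝ) ≤ 1 := by
      rw [div_le_one hw0]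
      nlinarith
    refine (KK_le (by positivity) ht0 ht1).trans ?_
    rw [← hN, one_div_div]
    have e1 : (L - 1) / (W : ℝ) * ((W : ℝ) * (1 / (L - 1))) = 1 := by
      field_simp
    rw [e1, hD, mul_comm (Real.exp 1)]
    apply mul_le_mul_of_nonneg_right _ he.le
    apply pow_le_pow_left₀ (by positivity)
    rw [div_le_div_iff₀ hL1 (by linarith)]
    nlinarith
  obtain ⟨w', w1, w2⟩ := block_law_odd (I := I) (N := N) (m := m)
    (L := L) (θ := 1 / 2) (δ := 1 / (8 * D)) (by rw [← hW, hN]) (by omega) (by linarith)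
    hI (by norm_num)
    (by
      rw [hNr]
      have h1 : 8 * (m * L) ≤ (W : ℝ) - m := by linarith
      calc (m : ℝ) = (1 / 2) ^ 2 * (1 / L * (1 / 2) * (8 * (m * L))) := by
            field_simp
            norm_num
        _ ≤ (1 / 2) ^ 2 * (1 / L * (1 - 1 / L) * ((W : ℝ) - m)) := by
            apply mul_le_mul_of_nonneg_left _ (by norm_num)
            have h2 : 1 / L * (1 / 2) ≤ 1 / L * (1 - 1 / L) :=
              mul_le_mul_of_nonneg_left (by linarith) (by positivity)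
            exact mul_le_mul h2 h1 (by positivity) (by
              apply mul_nonneg (by positivity)
              linarith))
    (by positivity)
    (by
      rw [div_lt_one (by positivity)]
      linarith)
    (by
      have h5 : (1 + m / ((N : ℝ) - m + 1)) * KK (N + 1) m (1 / (L - 1)) ≤ 2 * D := by
        apply mul_le_mul (by linarith) hKK _ (by norm_num)
        unfold KK
        have : 0 < L - 1 := by linarith
        positivity
      calc 1 / (8 * D) * ((1 + m / ((N : ℝ) - m + 1)) * KK (N + 1) m (1 / (L - 1)))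
          ≤ 1 / (8 * D) * (2 * D) := mul_le_mul_of_nonneg_left h5 (by positivity)
        _ = 1 / 4 := by
            have : D ≠ 0 := by positivity
            field_simp
            norm_num
        _ ≤ _ := by linarith)
  refine ⟨w', w1, le_trans ?_ w2⟩
  have h6 : 1 / (16 * Real.exp 1) * (L / (2 * (W : ℝ))) ^ m = 1 / 2 * (1 / (8 * D)) := by
    rw [hD, div_pow, div_pow]
    have h8 : (2 * (W : ℝ)) ^ m ≠ 0 := by positivity
    have h9 : L ^ m ≠ 0 := by positivity
    field_simp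
    norm_num
  rw [h6]
  exact mul_le_mul_of_nonneg_right (by linarith) (by positivity)

/-- the mass at the empty set for growing orders -/
lemma mass_growing {I : Finset ℕ} {m : ℕ} {L σ : ℝ} (hm : 1 ≤ m) (hσ : 0 < σ) (hσ1 : σ < 1)
    (hL : 1 + 8 / σ ≤ L) (hcase : m * L ≤ (1 - σ) * I.card)
    (hI : ∀ y ∈ I, 3 ≤ y ∧ L ≤ Real.log y) :
    ∃ w : Finset ℕ → ℝ, IsLaw I (2 * m + 1) cp w ∧
      σ / 32 / (Real.exp 1 * I.card / (m * (L - 1))) ^ m ≤ w ∅ := by
  have he := Real.exp_pos 1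
  have hm0 : (0:ℝ) < m := by exact_mod_cast hm
  have hm1 : (1:ℝ) ≤ m := by exact_mod_cast hm
  set W : ℕ := I.card with hW
  have h8σ : 8 < 8 / σ := by
    rw [lt_div_iff₀ hσ]
    linarith
  have hL9 : 9 < L := by linarith
  have hL0 : 0 < L := by linarith
  have hLσ : 8 ≤ σ * (L - 1) := by
    have h1 : 8 / σ ≤ L - 1 := by linarith
    rw [div_le_iff₀ hσ] at h1
    linarith
  have hWr : (m : ℝ) * L ≤ W := by
    refine hcase.trans ?_
    have : (0:ℝ) ≤ W := Nat.cast_nonneg _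
    nlinarith
  have hw9 : 9 * (m : ℝ) < W := by nlinarith
  have hwm : 9 * m < W := by exact_mod_cast hw9
  have hw0 : (0:ℝ) < W := by linarith
  obtain ⟨N, hN⟩ : ∃ N : ℕ, W = N + 1 := ⟨W - 1, by omega⟩
  have hNr : (N : ℝ) - m + 1 = (W : ℝ) - m := by
    rw [hN]
    push_cast
    ring
  have hWm0 : 0 < (W : ℝ) - m := by linarith
  have hLi : 1 / L * L = 1 := one_div_mul_cancel hL0.ne'
  have hLi0 : 0 < 1 / L := by positivity
  have hmW : (W : ℝ) * (1 - 1 / L) ≤ W - m := by
    have : (m : ℝ) ≤ W * (1 / L) := by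
      rw [mul_one_div, le_div_iff₀ hL0]
      exact hWr
    linarith
  set θ : ℝ := 1 - σ / 4 with hθ
  have hη : m / ((N : ℝ) - m + 1) ≤ σ / 8 := by
    rw [hNr, div_le_iff₀ hWm0]
    nlinarith
  have hη0 : 0 ≤ m / ((N : ℝ) - m + 1) := by
    rw [hNr]
    positivity
  set B : ℝ := (Real.exp 1 * (W : ℝ) / (m * (L - 1))) ^ m with hB
  have hL1 : 0 < L - 1 := by linarith
  have hbase : 1 ≤ Real.exp 1 * (W : ℝ) / (m * (L - 1)) := by
    rw [le_div_iff₀ (by positivity), one_mul]
    have h5 : (1:ℝ) ≤ Real.exp 1 := Real.one_le_exp (by norm_num)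
    have h6 : (W : ℝ) ≤ Real.exp 1 * W := le_mul_of_one_le_left hw0.le h5
    have h7 : (m : ℝ) * (L - 1) = m * L - m := by ring
    linarith
  have hB1 : 1 ≤ B := one_le_pow₀ hbase
  have hB0 : 0 < B := by linarith
  have hKK : KK (N + 1) m (1 / (L - 1)) ≤ B := by
    have ht0 : 0 < m * (L - 1) / (W : ℝ) := by positivity
    have ht1 : m * (L - 1) / (W : ℝ) ≤ 1 := by
      rw [div_le_one hw0]
      have h7 : (m : ℝ) * (L - 1) = m * L - m := by ring
      linarith
    refine (KK_le (by positivity) ht0 ht1).trans (le_of_eq ?_)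
    rw [← hN, hB, one_div_div]
    have e1 : m * (L - 1) / (W : ℝ) * ((W : ℝ) * (1 / (L - 1))) = m := by
      field_simp
    have e2 : Real.exp (m : ℝ) = Real.exp 1 ^ m := by
      rw [← Real.exp_nat_mul, mul_one]
    rw [e1, e2, ← mul_pow]
    congr 1
    ring
  obtain ⟨w', w1, w2⟩ := block_law_odd (I := I) (N := N) (m := m) (L := L) (θ := θ)
    (δ := (σ / 4) / (4 * B)) (by rw [← hW, hN]) (by omega) (by linarith) hI
    (by rw [hθ]; linarith)
    (by
      rw [hNr]
      have h1 : 1 - σ / 2 ≤ θ ^ 2 := by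
        rw [hθ]
        nlinarith [sq_nonneg σ]
      have h2 : (1 - σ) * (W * (1 / L)) ≤
          (1 - σ / 2) * (1 / L * (1 - 1 / L) * ((W : ℝ) * (1 - 1 / L))) := by
        have h3 : (1 - σ / 2) * (1 / L * (1 - 1 / L) * ((W : ℝ) * (1 - 1 / L))) =
            ((1 - σ / 2) * (1 - 1 / L) ^ 2) * (W * (1 / L)) := by ring
        rw [h3]
        apply mul_le_mul_of_nonneg_right _ (by positivity)
        have h4 : 1 / L ≤ σ / 8 := by
          rw [div_le_div_iff₀ hL0 (by norm_num)]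
          nlinarith
        nlinarith [sq_nonneg (1 / L)]
      have h3 : (m : ℝ) ≤ (1 - σ) * (W * (1 / L)) := by
        rw [mul_one_div, mul_div_assoc', le_div_iff₀ hL0]
        exact hcase
      have h10 : 1 / L ≤ 1 := by
        rw [div_le_one hL0]
        linarith
      refine h3.trans (h2.trans ?_)
      apply mul_le_mul h1 _ _ (by positivity)
      · apply mul_le_mul_of_nonneg_left hmW
        apply mul_nonneg hLi0.le
        linarith
      · apply mul_nonneg
        · apply mul_nonneg hLi0.le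
          linarith
        · apply mul_nonneg hw0.le
          linarith)
    (by positivity)
    (by
      rw [div_lt_one (by positivity)]
      linarith)
    (by
      have h5 : (1 + m / ((N : ℝ) - m + 1)) * KK (N + 1) m (1 / (L - 1)) ≤ 2 * B := by
        apply mul_le_mul (by linarith) hKK _ (by norm_num)
        unfold KK
        positivity
      calc σ / 4 / (4 * B) * ((1 + m / ((N : ℝ) - m + 1)) * KK (N + 1) m (1 / (L - 1)))
          ≤ σ / 4 / (4 * B) * (2 * B) := mul_le_mul_of_nonneg_left h5 (by positivity)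
        _ = σ / 8 := by
            field_simp
            norm_num
        _ ≤ _ := by
            rw [hθ]
            linarith)
  refine ⟨w', w1, le_trans ?_ w2⟩
  have h6 : σ / 32 / B = 1 / 2 * (σ / 4 / (4 * B)) := by
    field_simp
    norm_num
  rw [h6]
  apply mul_le_mul_of_nonneg_right _ (by positivity)
  have : 1 / L ≤ 1 / 2 := one_div_le_one_div_of_le two_pos (by linarith)
  linarith

/-- no element in a long interval -/
lemma noA {η : ℝ} (hη : 0 < η) : ∀ᶠ N : ℕ in atTop, ∀ n₀ : ℕ, (1 + η) * N ≤ (n₀ : ℝ) ^ 2 →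
    (n₀ : ℝ) ^ 2 ≤ 4 * N → 1 ≤ ⌊Real.sqrt N⌋₊ ∧ ⌊Real.sqrt N⌋₊ ≤ n₀ ^ 2 + 1 - N ∧
    Real.log ((n₀ ^ 2 : ℕ) : ℝ) ≤ Real.log (4 * N) ∧
    1 / ((Real.exp 1 * ((((n₀ ^ 2 + 1 - N : ℕ) : ℝ) - (⌊Real.sqrt N⌋₊ : ℝ) + 1) *
      (1 / Real.log (4 * N))) / (⌊Real.sqrt N⌋₊ : ℝ)) ^ ⌊Real.sqrt N⌋₊ /
      (Real.exp 1 * (⌊Real.sqrt N⌋₊ : ℝ))) ≤ Real.exp (-(2 * Real.sqrt N)) := by
  have he := Real.exp_pos 1
  have hsq : Tendsto (fun N : ℕ => Real.sqrt (N : ℝ)) atTop atTop :=
    Real.tendsto_sqrt_atTop.comp tendsto_natCast_atTop_atTop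
  have hev : ∀ᶠ N : ℕ in atTop, Real.exp 4 * Real.log (4 * N) ≤ η * Real.sqrt N - 1 := by
    have h1 : Tendsto (fun x : ℝ => Real.log x / x ^ (1 / 2 : ℝ)) atTop (𝓝 0) := by
      have := (isLittleO_log_rpow_atTop (show (0:ℝ) < 1 / 2 by norm_num)).tendsto_div_nhds_zero
      exact this
    have h2 : Tendsto (fun N : ℕ => 4 * (N : ℝ)) atTop atTop :=
      tendsto_natCast_atTop_atTop.const_mul_atTop (by norm_num)
    have h3 := (h1.comp h2).eventually_le_const (show (0:ℝ) < η / (4 * Real.exp 4) by positivity)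
    have h4 := hsq.eventually_ge_atTop (2 / η)
    filter_upwards [h3, h4, eventually_ge_atTop 1] with N g1 g2 g3
    simp only [Function.comp_apply] at g1
    have hN0 : (0:ℝ) < N := by exact_mod_cast g3
    have hs : (4 * (N : ℝ)) ^ (1 / 2 : ℝ) = 2 * Real.sqrt N := by
      rw [← Real.sqrt_eq_rpow, Real.sqrt_mul (by norm_num)]
      congr 1
      rw [show (4:ℝ) = 2 ^ 2 by norm_num]
      exact Real.sqrt_sq (by norm_num)
    have hs0 : 0 < Real.sqrt N := Real.sqrt_pos.2 hN0
    rw [hs, div_le_div_iff₀ (by positivity) (by positivity)] at g1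
    rw [div_le_iff₀ hη] at g2
    nlinarith
  filter_upwards [hev, hsq.eventually_ge_atTop 4, eventually_ge_atTop 3] with N g1 g2 g3 n₀ h1 h2
  have hN0 : (3:ℝ) ≤ N := by exact_mod_cast g3
  set R : ℝ := Real.sqrt N with hR
  set j : ℕ := ⌊R⌋₊ with hj
  have hRR : R * R = N := Real.mul_self_sqrt (by linarith)
  have hjle : (j : ℝ) ≤ R := Nat.floor_le (by linarith)
  have hjlt : R < j + 1 := Nat.lt_floor_add_one _
  have hj1 : 1 ≤ j := Nat.le_floor (by push_cast; linarith)
  have hj0 : (0:ℝ) < j := by exact_mod_cast hj1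
  have hNn : N ≤ n₀ ^ 2 := by
    have : (N : ℝ) ≤ ((n₀ ^ 2 : ℕ) : ℝ) := by
      push_cast
      nlinarith
    exact_mod_cast this
  have hcast : ((n₀ ^ 2 + 1 - N : ℕ) : ℝ) = (n₀ : ℝ) ^ 2 + 1 - N := by
    rw [Nat.cast_sub (by omega)]
    push_cast
    ring
  have hlog0 : 0 < Real.log (4 * N) := Real.log_pos (by linarith)
  have hηR : 0 < η * R - 1 := lt_of_lt_of_le (by positivity) g1
  have hηN : R * (η * R - 1) + 1 ≤ ((n₀ ^ 2 + 1 - N : ℕ) : ℝ) - j + 1 := by
    rw [hcast]
    nlinarith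
  have hjn : j ≤ n₀ ^ 2 + 1 - N := by
    have : (j : ℝ) ≤ ((n₀ ^ 2 + 1 - N : ℕ) : ℝ) := by
      have : 0 < R * (η * R - 1) := by positivity
      linarith
    exact_mod_cast this
  refine ⟨hj1, hjn, ?_, ?_⟩
  · apply Real.log_le_log
    · exact_mod_cast (by omega : 0 < n₀ ^ 2)
    · push_cast
      exact h2
  · set b : ℝ := Real.exp 1 * ((((n₀ ^ 2 + 1 - N : ℕ) : ℝ) - j + 1) *
      (1 / Real.log (4 * N))) / j with hb
    have hb4 : Real.exp 4 ≤ b := by
      rw [hb, le_div_iff₀ hj0]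
      have h3 : Real.exp 4 * Real.log (4 * N) * R ≤ ((n₀ ^ 2 + 1 - N : ℕ) : ℝ) - j + 1 := by
        have := mul_le_mul_of_nonneg_right g1 (show 0 ≤ R by linarith)
        linarith
      have h4 : Real.exp 4 * R ≤ (((n₀ ^ 2 + 1 - N : ℕ) : ℝ) - j + 1) *
          (1 / Real.log (4 * N)) := by
        rw [mul_one_div, le_div_iff₀ hlog0]
        linarith
      have h5 : (1:ℝ) ≤ Real.exp 1 := Real.one_le_exp (by norm_num)
      have h6 : Real.exp 4 * j ≤ Real.exp 4 * R := mul_le_mul_of_nonneg_left hjle (by positivity)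
      have h7 : 0 ≤ (((n₀ ^ 2 + 1 - N : ℕ) : ℝ) - j + 1) * (1 / Real.log (4 * N)) :=
        le_trans (by positivity) h4
      have h8 := mul_le_mul_of_nonneg_right h5 h7
      linarith
    have h3 : Real.exp 4 ^ j ≤ b ^ j := pow_le_pow_left₀ (by positivity) hb4 j
    have h4 : (j : ℝ) ≤ Real.exp j := by
      have := Real.add_one_le_exp (j : ℝ)
      linarith
    rw [one_div_div]
    calc Real.exp 1 * j / b ^ j ≤ Real.exp 1 * Real.exp j / Real.exp 4 ^ j := by
          apply div_le_div₀ (by positivity) (mul_le_mul_of_nonneg_left h4 he.le) (by positivity) h3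
      _ = Real.exp (1 + j - 4 * j) := by
          rw [← Real.exp_nat_mul, ← Real.exp_add, ← Real.exp_sub]
          congr 1
          ring
      _ ≤ _ := by
          apply Real.exp_le_exp.2
          linarith

end Q167.AN
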