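import Pool.Agent.Q167.AN.C

/-! # Andrica's inequality for random primes with limited independence: the laws -/

set_option autoImplicit false

namespace Q167.AN

open Finset MeasureTheory Filter Topology Q198.CI Q167.LI Q167.SQ

lemma one_sub_exp {t : ℝ} (h0 : 0 ≤ t) (h1 : t ≤ 1) : t / 2 ≤ 1 - Real.exp (-t) := by
  have h2 := Real.add_one_le_exp t
  have h3 : Real.exp (-t) ≤ 1 / (1 + t) := by
    rw [Real.exp_neg, ← one_div]
    exact one_div_le_one_div_of_le (by linarith) (by linarith)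
  have h4 : t / 2 ≤ 1 - 1 / (1 + t) := by
    have h5 : 1 - 1 / (1 + t) = t / (1 + t) := by
      field_simp
      ring
    rw [h5]
    apply div_le_div_of_nonneg_left h0 (by linarith) (by linarith)
  linarith

lemma sqrt_tendsto : Tendsto (fun N : ℕ => Real.sqrt (N : ℝ)) atTop atTop :=
  Real.tendsto_sqrt_atTop.comp tendsto_natCast_atTop_atTop

/-- `log N` is small compared with `√N` -/
lemma log_small (C : ℝ) : ∀ᶠ N : ℕ in atTop, C * Real.log N ^ 2 ≤ Real.sqrt N := by
  have t3 := Real.tendsto_pow_mul_exp_neg_atTop_nhds_zero 2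
  have t4 : Tendsto (fun N : ℕ => 4 * |C| * ((Real.log N / 2) ^ 2 *
      Real.exp (-(Real.log N / 2)))) atTop (𝓝 (4 * |C| * 0)) :=
    (t3.comp (tendsto_log_nat.atTop_div_const two_pos)).const_mul _
  rw [mul_zero] at t4
  filter_upwards [t4.eventually_le_const zero_lt_one, eventually_ge_atTop 1] with N h1 h2
  have hN0 : (0:ℝ) < N := by exact_mod_cast h2
  have hs : Real.exp (Real.log N / 2) = Real.sqrt N := by
    rw [← Real.log_sqrt hN0.le, Real.exp_log (Real.sqrt_pos.2 hN0)]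
  rw [Real.exp_neg, hs] at h1
  have hs0 : 0 < Real.sqrt N := Real.sqrt_pos.2 hN0
  have e1 : 4 * |C| * ((Real.log N / 2) ^ 2 * (Real.sqrt N)⁻¹) =
      |C| * Real.log N ^ 2 / Real.sqrt N := by
    field_simp
    ring
  rw [e1, div_le_one hs0] at h1
  have h3 : C * Real.log N ^ 2 ≤ |C| * Real.log N ^ 2 :=
    mul_le_mul_of_nonneg_right (le_abs_self C) (by positivity)
  linarith

/-- the law for a fixed order -/
theorem fixed_law {k : ℕ} (hk : 4 ≤ k) : ∃ c C : ℝ, 0 < c ∧ 0 < C ∧ ∀ᶠ N : ℕ in atTop,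
    (∀ (Ω : Type) [MeasurableSpace Ω] (P : Measure Ω) [IsProbabilityMeasure P] (E : ℕ → Set Ω),
      (∀ n, MeasurableSet (E n)) → (∀ T : Finset ℕ, (∀ n ∈ T, 3 ≤ n ∧ T.card ≤ k) →
        P (⋂ n ∈ T, E n) = ENNReal.ofReal (∏ n ∈ T, 1 / Real.log n)) →
      P {ω | Fails {n | ω ∈ E n} N} ≤
        ENNReal.ofReal (C * (Real.sqrt N * (Real.log N / Real.sqrt N) ^ (k / 2)))) ∧
    ∃ (Ω : Type) (_ : MeasurableSpace Ω) (P : Measure Ω) (_ : IsProbabilityMeasure P)
      (E : ℕ → Set Ω), (∀ n, MeasurableSet (E n)) ∧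
      (∀ T : Finset ℕ, (∀ n ∈ T, 3 ≤ n ∧ T.card ≤ k) →
        P (⋂ n ∈ T, E n) = ENNReal.ofReal (∏ n ∈ T, 1 / Real.log n)) ∧
      ENNReal.ofReal (c * (Real.sqrt N * (Real.log N / Real.sqrt N) ^ (k / 2))) ≤
        P {ω | Fails {n | ω ∈ E n} N} := by
  have he := Real.exp_pos 1
  set m : ℕ := k / 2 with hm
  have hm2 : 2 ≤ m := by omega
  have hm0 : (0:ℝ) < m := by exact_mod_cast (by omega : 0 < m)
  set C : ℝ := 240 * Real.exp 1 * m * (8 * m / (5 * Real.exp 1)) ^ m with hC
  set c₂ : ℝ := 1 / (32 * Real.exp 1 * 10 ^ m) with hc₂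
  have hc₂0 : 0 < c₂ := by positivity
  refine ⟨c₂ / 4, C, by positivity, by positivity, ?_⟩
  have hex : ∀ᶠ N : ℕ in atTop, Real.sqrt N ^ m * Real.exp (-Real.sqrt N) ≤ c₂ / 4 :=
    ((Real.tendsto_pow_mul_exp_neg_atTop_nhds_zero m).comp sqrt_tendsto).eventually_le_const
      (by positivity)
  filter_upwards [eventually_ge_atTop 4, tendsto_log_nat.eventually_ge_atTop 8,
    sqrt_tendsto.eventually_ge_atTop 8, sqrt_tendsto.eventually_ge_atTop (4 * m),
    log_small (8 * m), noA (η := 1 / 4) (by norm_num), hex] with N h1 h2 h3 h4 h5 h6 h7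
  have hN0 : (4:ℝ) ≤ N := by exact_mod_cast h1
  set R : ℝ := Real.sqrt N with hR
  have hR0 : 0 < R := by linarith
  have hRR : R * R = N := Real.mul_self_sqrt (by linarith)
  set ℓ : ℝ := Real.log N with hℓ
  have hlog4 : Real.log (4 * N) ≤ 2 * ℓ := by
    rw [Real.log_mul (by norm_num) (by linarith)]
    have : Real.log 4 ≤ ℓ := Real.log_le_log (by norm_num) hN0
    linarith
  have hlog4' : 8 ≤ Real.log (4 * N) := by
    have : ℓ ≤ Real.log (4 * N) := Real.log_le_log (by linarith) (by linarith)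
    linarith
  refine ⟨fun Ω _ P _ E hE hT => ?_, ?_⟩
  · refine (andrica_upper P hE hT (η := 1 / 4) (by norm_num) le_rfl hm2 (by omega)
      (by omega) hlog4' (by linarith) (by linarith)).trans ?_
    apply ENNReal.ofReal_le_ofReal
    have h8 : (m : ℝ) * Real.log (4 * N) / (Real.exp 1 * (2 - 3 * (1 / 4)) * R) ≤
        8 * m / (5 * Real.exp 1) * (ℓ / R) := by
      have e1 : 8 * (m : ℝ) / (5 * Real.exp 1) * (ℓ / R) =
          m * (2 * ℓ) / (Real.exp 1 * (2 - 3 * (1 / 4)) * R) := by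
        field_simp
        norm_num
      rw [e1]
      apply div_le_div_of_nonneg_right _ (by
        apply mul_nonneg _ hR0.le
        apply mul_nonneg he.le
        norm_num)
      exact mul_le_mul_of_nonneg_left hlog4 hm0.le
    have h9 : 0 ≤ (m : ℝ) * Real.log (4 * N) / (Real.exp 1 * (2 - 3 * (1 / 4)) * R) := by
      apply div_nonneg (mul_nonneg hm0.le (by linarith))
      apply mul_nonneg _ hR0.le
      apply mul_nonneg he.le
      norm_num
    have h10 := pow_le_pow_left₀ h9 h8 m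
    rw [mul_pow] at h10
    rw [hC]
    have h11 : 60 * Real.exp 1 / (1 / 4) * (m : ℝ) * R = 240 * Real.exp 1 * m * R := by ring
    rw [h11]
    refine (mul_le_mul_of_nonneg_left h10 (by positivity)).trans (le_of_eq ?_)
    ring
  · set n₀ : ℕ := ⌈6 / 5 * R⌉₊ with hn₀
    have hn₀ge : 6 / 5 * R ≤ n₀ := Nat.le_ceil _
    have hn₀lt : (n₀ : ℝ) < 6 / 5 * R + 1 := Nat.ceil_lt_add_one (by positivity)
    have hsq1 : (1 + 1 / 4) * (N : ℝ) ≤ (n₀ : ℝ) ^ 2 := by
      rw [← hRR]
      nlinarith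
    have hsq2 : (n₀ : ℝ) ^ 2 ≤ 4 * N := by
      rw [← hRR]
      nlinarith
    obtain ⟨a1, a2, a3, a4⟩ := h6 n₀ hsq1 hsq2
    have hNn : N ≤ n₀ ^ 2 := by
      have : (N : ℝ) ≤ ((n₀ ^ 2 : ℕ) : ℝ) := by
        push_cast
        nlinarith
      exact_mod_cast this
    set c' : ℕ := ⌊R⌋₊ with hc'
    have hc'le : (c' : ℝ) ≤ R := Nat.floor_le hR0.le
    have hc'ge : R / 2 ≤ c' := by
      have := Nat.lt_floor_add_one R
      linarith
    set δ : ℝ := 1 / (16 * Real.exp 1) * (ℓ / (10 * R)) ^ m with hδ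
    have hℓ0 : 0 < ℓ := by linarith
    have hδ0 : 0 ≤ δ := by positivity
    obtain ⟨Ω, mΩ, P, hP, E, hE, hT, hae⟩ := andrica_lower (N := N) (n₀ := n₀) (n₁ := n₀ + c')
      (k := k) (j := c') (δ := δ) (L := Real.log (4 * N)) (by omega) (by omega) hδ0
      (by
        intro n hn1 hn2
        have hcard : (Ioc (n ^ 2) (n ^ 2 + 2 * n)).card = 2 * n := by
          rw [Nat.card_Ioc, Nat.add_sub_cancel_left]
        have hn1r : (n₀ : ℝ) ≤ n := by exact_mod_cast hn1
        have hn2r : (n : ℝ) ≤ n₀ + c' := by exact_mod_cast hn2.le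
        have hnR : R ≤ n := by linarith
        obtain ⟨w, w1, w2⟩ := mass_fixed (I := Ioc (n ^ 2) (n ^ 2 + 2 * n)) (m := m) (L := ℓ)
          (by omega) (by linarith) (by
            rw [hcard]
            push_cast
            nlinarith) (by
            intro y hy
            rw [mem_Ioc] at hy
            have hy1 : N < y := by
              have : n₀ ^ 2 ≤ n ^ 2 := Nat.pow_le_pow_left hn1 2
              omega
            refine ⟨by omega, ?_⟩
            apply Real.log_le_log (by linarith)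
            exact_mod_cast hy1.le)
        refine ⟨w, ⟨w1.1, fun T hT hTc => w1.2 T hT (by omega)⟩, le_trans ?_ w2⟩
        rw [hδ, hcard]
        apply mul_le_mul_of_nonneg_left _ (by positivity)
        apply pow_le_pow_left₀ (by positivity)
        apply div_le_div_of_nonneg_left hℓ0.le
        · have : (0:ℝ) < n := by linarith
          push_cast
          positivity
        · push_cast
          linarith)
      a1 a2 a3 (by linarith)
    refine ⟨Ω, mΩ, P, hP, E, hE, hT, le_trans ?_ hae⟩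
    apply ENNReal.ofReal_le_ofReal
    have hc1 : ((n₀ + c' - n₀ : ℕ) : ℝ) = c' := by rw [Nat.add_sub_cancel_left]
    rw [hc1]
    have ht0 : 0 ≤ (c' : ℝ) * δ := by positivity
    set Q : ℝ := R * (ℓ / R) ^ m with hQ
    have hRm : R ^ m ≠ 0 := by positivity
    have hδQ : R * δ = 2 * c₂ * Q := by
      have e0 : (ℓ / (10 * R)) ^ m = (ℓ / R) ^ m / 10 ^ m := by
        rw [← div_pow]
        congr 1
        field_simp
      rw [hδ, hc₂, hQ, e0]
      have h10m : (10:ℝ) ^ m ≠ 0 := by positivity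
      generalize (10:ℝ) ^ m = y at h10m
      generalize (ℓ / R) ^ m = z
      field_simp
      ring
    have hQ1 : Q ≤ 1 := by
      have h8 : ℓ / R ≤ 1 := by
        rw [div_le_one hR0]
        have h81 : ℓ ≤ ℓ ^ 2 := by nlinarith
        have h82 : (1:ℝ) * ℓ ^ 2 ≤ 8 * m * ℓ ^ 2 := by
          apply mul_le_mul_of_nonneg_right _ (by positivity)
          linarith [show (2:ℝ) ≤ m by exact_mod_cast hm2]
        linarith
      have h9 : (ℓ / R) ^ m ≤ (ℓ / R) ^ 2 := pow_le_pow_of_le_one (by positivity) h8 hm2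
      have h10 : R * (ℓ / R) ^ 2 = ℓ ^ 2 / R := by
        field_simp
      calc Q ≤ R * (ℓ / R) ^ 2 := mul_le_mul_of_nonneg_left h9 hR0.le
        _ = ℓ ^ 2 / R := h10
        _ ≤ 1 := by
            rw [div_le_one hR0]
            have h82 : (1:ℝ) * ℓ ^ 2 ≤ 8 * m * ℓ ^ 2 := by
              apply mul_le_mul_of_nonneg_right _ (by positivity)
              linarith [show (2:ℝ) ≤ m by exact_mod_cast hm2]
            linarith
    have hQ0 : 0 < Q := by positivity
    have hc₂1 : c₂ ≤ 1 / 32 := by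
      rw [hc₂]
      apply one_div_le_one_div_of_le (by norm_num)
      have h8 : (1:ℝ) ≤ Real.exp 1 := Real.one_le_exp (by norm_num)
      have h9 : (1:ℝ) ≤ 10 ^ m := one_le_pow₀ (by norm_num)
      nlinarith
    have ht1 : (c' : ℝ) * δ ≤ 1 := by
      have h8 : (c' : ℝ) * δ ≤ R * δ := mul_le_mul_of_nonneg_right hc'le hδ0
      rw [hδQ] at h8
      nlinarith
    have ht2 : c₂ * Q ≤ (c' : ℝ) * δ := by
      have h8 : R / 2 * δ ≤ c' * δ := mul_le_mul_of_nonneg_right hc'ge hδ0
      linarith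
    have h8 := one_sub_exp ht0 ht1
    have h9 : Real.exp (-(2 * R)) ≤ c₂ / 4 * Q := by
      have h10 : 1 / R ^ m ≤ Q := by
        rw [hQ, div_pow]
        have h11 : (1:ℝ) ≤ ℓ ^ m := one_le_pow₀ (by linarith)
        have h12 : (1:ℝ) ≤ R * ℓ ^ m := by nlinarith
        rw [mul_div_assoc']
        exact div_le_div_of_nonneg_right h12 (by positivity)
      have h11 : Real.exp (-R) ≤ c₂ / 4 * (1 / R ^ m) := by
        rw [mul_one_div, le_div_iff₀ (by positivity)]
        linarith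
      have h12 : Real.exp (-(2 * R)) ≤ Real.exp (-R) := Real.exp_le_exp.2 (by linarith)
      have h13 : c₂ / 4 * (1 / R ^ m) ≤ c₂ / 4 * Q := mul_le_mul_of_nonneg_left h10 (by positivity)
      linarith
    have h10 : Real.exp (-(c' : ℝ) * δ) = Real.exp (-((c' : ℝ) * δ)) := by
      congr 1
      ring
    rw [h10]
    linarith

end Q167.AN
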