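import Pool.Agent.Q167.AN.D

/-! # Andrica's inequality for random primes with limited independence: large orders -/

set_option autoImplicit false

namespace Q167.AN

open Finset MeasureTheory Filter Topology Q198.CI Q167.LI Q167.SQ

/-- the largest useful half order -/
noncomputable def MM (N : ℕ) : ℕ := ⌊2 * Real.sqrt N / Real.log N⌋₊

/-- half the order -/
noncomputable def hk (k N : ℕ) : ℕ := min (k / 2) (MM N)

/-- the rate -/
noncomputable def FF (k N : ℕ) : ℝ :=
  hk k N * Real.log (2 * Real.exp 1 * Real.sqrt N / (hk k N * Real.log N))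

/-- the law for large orders, uniformly -/
theorem growing_law {ε : ℝ} (hε : 0 < ε) (hε1 : ε ≤ 1) : ∃ K : ℕ, ∀ᶠ N : ℕ in atTop,
    ∀ k : ℕ, K ≤ k →
    (∀ (Ω : Type) [MeasurableSpace Ω] (P : Measure Ω) [IsProbabilityMeasure P] (E : ℕ → Set Ω),
      (∀ n, MeasurableSet (E n)) → (∀ T : Finset ℕ, (∀ n ∈ T, 3 ≤ n ∧ T.card ≤ k) →
        P (⋂ n ∈ T, E n) = ENNReal.ofReal (∏ n ∈ T, 1 / Real.log n)) →
      P {ω | Fails {n | ω ∈ E n} N} ≤ ENNReal.ofReal (Real.exp (-((1 - ε) * FF k N)))) ∧
    ∃ (Ω : Type) (_ : MeasurableSpace Ω) (P : Measure Ω) (_ : IsProbabilityMeasure P)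
      (E : ℕ → Set Ω), (∀ n, MeasurableSet (E n)) ∧
      (∀ T : Finset ℕ, (∀ n ∈ T, 3 ≤ n ∧ T.card ≤ k) →
        P (⋂ n ∈ T, E n) = ENNReal.ofReal (∏ n ∈ T, 1 / Real.log n)) ∧
      ENNReal.ofReal (Real.exp (-((1 + ε) * FF k N))) ≤ P {ω | Fails {n | ω ∈ E n} N} := by
  have he := Real.exp_pos 1
  set η : ℝ := ε / 16 with hη
  have hη0 : 0 < η := by positivity
  have hη1 : η ≤ 1 / 16 := by rw [hη]; linarith
  -- the choice of `M₀`
  have hMev : ∀ᶠ M : ℕ in atTop, 60 * Real.exp 1 / η * (M : ℝ) ^ 3 ≤ Real.exp (ε / 4 * M) ∧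
      8 / ε ≤ (M : ℝ) ∧ 32 / η ≤ Real.exp (ε / 4 * M) ∧ 4 ≤ Real.exp (ε / 2 * M) ∧ 2 ≤ M := by
    have hc : Tendsto (fun M : ℕ => (M : ℝ)) atTop atTop := tendsto_natCast_atTop_atTop
    have h1 : Tendsto (fun M : ℕ => ε / 4 * (M : ℝ)) atTop atTop :=
      hc.const_mul_atTop (by positivity)
    have h2 : Tendsto (fun M : ℕ => ε / 2 * (M : ℝ)) atTop atTop :=
      hc.const_mul_atTop (by positivity)
    have t3 : Tendsto (fun M : ℕ => 60 * Real.exp 1 / η * (4 / ε) ^ 3 * ((ε / 4 * (M : ℝ)) ^ 3 *
        Real.exp (-(ε / 4 * (M : ℝ))))) atTop (𝓝 (60 * Real.exp 1 / η * (4 / ε) ^ 3 * 0)) :=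
      ((Real.tendsto_pow_mul_exp_neg_atTop_nhds_zero 3).comp h1).const_mul _
    rw [mul_zero] at t3
    filter_upwards [t3.eventually_le_const zero_lt_one, hc.eventually_ge_atTop (8 / ε),
      (Real.tendsto_exp_atTop.comp h1).eventually_ge_atTop (32 / η),
      (Real.tendsto_exp_atTop.comp h2).eventually_ge_atTop 4, eventually_ge_atTop 2]
      with M g1 g2 g3 g4 g5
    refine ⟨?_, g2, g3, g4, g5⟩
    have hX := Real.exp_pos (ε / 4 * (M : ℝ))
    rw [Real.exp_neg] at g1
    have e1 : 60 * Real.exp 1 / η * (4 / ε) ^ 3 * ((ε / 4 * (M : ℝ)) ^ 3 *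
        (Real.exp (ε / 4 * (M : ℝ)))⁻¹) =
        60 * Real.exp 1 / η * (M : ℝ) ^ 3 / Real.exp (ε / 4 * M) := by
      field_simp
    rw [e1, div_le_one hX] at g1
    exact g1
  obtain ⟨M₀, hM₀⟩ := eventually_atTop.1 hMev
  refine ⟨2 * M₀, ?_⟩
  have hx : Tendsto (fun N : ℕ => 2 * Real.sqrt N / Real.log N) atTop atTop := by
    have h1 : ∀ᶠ N : ℕ in atTop, Real.log N ≤ 2 * Real.sqrt N / Real.log N := by
      filter_upwards [log_small 1, tendsto_log_nat.eventually_gt_atTop 0] with N g1 g2
      rw [le_div_iff₀ g2]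
      nlinarith [Real.sqrt_nonneg (N : ℝ)]
    exact tendsto_atTop_mono' _ h1 tendsto_log_nat
  have hlogr : ∀ᶠ N : ℕ in atTop, Real.log (4 * N) ≤ (1 + η) * Real.log N := by
    have h1 : Tendsto (fun N : ℕ => η * Real.log N) atTop atTop :=
      tendsto_log_nat.const_mul_atTop hη0
    filter_upwards [h1.eventually_ge_atTop (Real.log 4), eventually_ge_atTop 1] with N g1 g2
    rw [Real.log_mul (by norm_num) (by
      have : (0:ℝ) < N := by exact_mod_cast g2
      exact this.ne')]
    linarith
  filter_upwards [eventually_ge_atTop 4, tendsto_log_nat.eventually_ge_atTop (1 + 8 / η),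
    sqrt_tendsto.eventually_ge_atTop (4 / η), log_small 1, noA hη0, hlogr,
    hx.eventually_ge_atTop (M₀ + 1), hx.eventually_ge_atTop (1 / η)]
    with N h1 h2 h3 h4 h5 h6 h7 h8 k hk'
  have hN0 : (4:ℝ) ≤ N := by exact_mod_cast h1
  set R : ℝ := Real.sqrt N with hR
  set ℓ : ℝ := Real.log N with hℓ
  set x : ℝ := 2 * R / ℓ with hxd
  have h8η : 128 ≤ 8 / η := by
    rw [le_div_iff₀ hη0]
    linarith
  have hℓ1 : 129 ≤ ℓ := by linarith
  have hℓ0 : 0 < ℓ := by linarith
  have hℓη : 8 ≤ η * (ℓ - 1) := by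
    have : 8 / η ≤ ℓ - 1 := by linarith
    rw [div_le_iff₀ hη0] at this
    linarith
  have hRη : 4 ≤ η * R := by
    rw [div_le_iff₀ hη0] at h3
    linarith
  have hR64 : 64 ≤ R := by nlinarith
  have hR0 : 0 < R := by linarith
  have hRR : R * R = N := Real.mul_self_sqrt (by linarith)
  have hx0 : 0 < x := by positivity
  set m : ℕ := hk k N with hmd
  have hmM : M₀ ≤ m := by
    rw [hmd]
    unfold hk MM
    apply le_min
    · omega
    · apply Nat.le_floor
      linarith
  obtain ⟨c1, c2, c3, c4, c5⟩ := hM₀ m hmM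
  have hm2 : 2 ≤ m := c5
  have hm0 : (0:ℝ) < m := by exact_mod_cast (by omega : 0 < m)
  have hmx : (m : ℝ) ≤ x := by
    have h9 : m ≤ ⌊x⌋₊ := min_le_right _ _
    exact le_trans (by exact_mod_cast h9) (Nat.floor_le hx0.le)
  set lam : ℝ := Real.log (2 * Real.exp 1 * R / (m * ℓ)) with hlam
  have hexl : Real.exp lam = Real.exp 1 * (x / m) := by
    rw [hlam, Real.exp_log (by positivity), hxd]
    field_simp
  have hlam1 : 1 ≤ lam := by
    rw [← Real.exp_le_exp, hexl]
    apply le_mul_of_one_le_right he.le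
    rw [le_div_iff₀ hm0]
    linarith
  have hF : FF k N = m * lam := rfl
  have hmlam : (m : ℝ) ≤ m * lam := le_mul_of_one_le_right hm0.le hlam1
  have hFx : m * lam ≤ x := by
    have h9 := Real.add_one_le_exp (lam - 1)
    have h10 : Real.exp (lam - 1) = x / m := by
      rw [Real.exp_sub, hexl]
      field_simp
    rw [h10] at h9
    have h11 : lam ≤ x / m := by linarith
    rw [le_div_iff₀ hm0] at h11
    linarith
  rw [hF]
  refine ⟨fun Ω _ P _ E hE hT => ?_, ?_⟩
  · have hmη : (m : ℝ) ≤ η * R := by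
      refine hmx.trans ?_
      rw [hxd, div_le_iff₀ hℓ0]
      nlinarith
    have hko : 2 * m ≤ k := by
      have : m ≤ k / 2 := min_le_left _ _
      omega
    refine (andrica_upper P hE hT (η := η) hη0 (by linarith) hm2 hko (by omega) (by
      have : ℓ ≤ Real.log (4 * N) := Real.log_le_log (by linarith) (by linarith)
      linarith) (by linarith) hmη).trans ?_
    apply ENNReal.ofReal_le_ofReal
    -- the base
    have hZ : (m : ℝ) * Real.log (4 * N) / (Real.exp 1 * (2 - 3 * η) * R) ≤
        Real.exp (-lam + 4 * η) := by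
      have e1 : Real.exp (-lam + 4 * η) = m / (Real.exp 1 * x) * Real.exp (4 * η) := by
        rw [Real.exp_add, Real.exp_neg, hexl]
        field_simp
      rw [e1]
      have h9 : (1 + η) / (1 - 3 / 2 * η) ≤ Real.exp (4 * η) := by
        have h10 : 1 + η ≤ Real.exp η := by
          have := Real.add_one_le_exp η
          linarith
        have h11 : 1 + 3 * η ≤ Real.exp (3 * η) := by
          have := Real.add_one_le_exp (3 * η)
          linarith
        rw [div_le_iff₀ (by linarith)]
        have h12 : Real.exp (4 * η) = Real.exp η * Real.exp (3 * η) := by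
          rw [← Real.exp_add]
          congr 1
          ring
        rw [h12]
        have h13 : 1 ≤ Real.exp (3 * η) * (1 - 3 / 2 * η) := by nlinarith
        have h14 := Real.exp_pos η
        nlinarith
      calc (m : ℝ) * Real.log (4 * N) / (Real.exp 1 * (2 - 3 * η) * R)
          ≤ m * ((1 + η) * ℓ) / (Real.exp 1 * (2 - 3 * η) * R) := by
            apply div_le_div_of_nonneg_right (mul_le_mul_of_nonneg_left h6 hm0.le)
            have : 0 < 2 - 3 * η := by linarith
            positivity
        _ = m / (Real.exp 1 * x) * ((1 + η) / (1 - 3 / 2 * η)) := by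
            rw [hxd]
            have h15 : 2 - 3 * η = 2 * (1 - 3 / 2 * η) := by ring
            have h16 : 1 - 3 / 2 * η ≠ 0 := by
              have : 0 < 1 - 3 / 2 * η := by linarith
              exact this.ne'
            rw [h15]
            generalize 1 - 3 / 2 * η = z at h16
            field_simp
        _ ≤ _ := mul_le_mul_of_nonneg_left h9 (by positivity)
    have hZ0 : 0 ≤ (m : ℝ) * Real.log (4 * N) / (Real.exp 1 * (2 - 3 * η) * R) := by
      have h15 : 0 < 2 - 3 * η := by linarith
      have h16 : 0 ≤ Real.log (4 * N) := Real.log_nonneg (by linarith)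
      positivity
    have hZm := pow_le_pow_left₀ hZ0 hZ m
    rw [← Real.exp_nat_mul] at hZm
    have hRb : R ≤ (m : ℝ) ^ 2 * Real.exp (2 * lam) := by
      have h9 : ℓ ≤ x := by
        rw [hxd, le_div_iff₀ hℓ0]
        nlinarith
      have h10 : R = x * ℓ / 2 := by
        rw [hxd]
        field_simp
      have h11 : x ≤ m * Real.exp lam := by
        rw [hexl]
        have h12 : (m : ℝ) * (Real.exp 1 * (x / m)) = Real.exp 1 * x := by
          field_simp
        rw [h12]
        exact le_mul_of_one_le_left hx0.le (Real.one_le_exp (by norm_num))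
      have h12 : Real.exp (2 * lam) = Real.exp lam ^ 2 := by
        rw [← Real.exp_nat_mul]
        norm_num
      rw [h12, ← mul_pow, h10]
      nlinarith [Real.exp_pos lam]
    have h9 : 60 * Real.exp 1 / η * m * R *
        (m * Real.log (4 * N) / (Real.exp 1 * (2 - 3 * η) * R)) ^ m ≤
        (60 * Real.exp 1 / η * (m : ℝ) ^ 3) * Real.exp (2 * lam) *
          Real.exp (m * (-lam + 4 * η)) := by
      have h10 : 60 * Real.exp 1 / η * m * R ≤
          60 * Real.exp 1 / η * m * ((m : ℝ) ^ 2 * Real.exp (2 * lam)) :=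
        mul_le_mul_of_nonneg_left hRb (by positivity)
      calc 60 * Real.exp 1 / η * m * R *
          (m * Real.log (4 * N) / (Real.exp 1 * (2 - 3 * η) * R)) ^ m
          ≤ 60 * Real.exp 1 / η * m * ((m : ℝ) ^ 2 * Real.exp (2 * lam)) *
            Real.exp (m * (-lam + 4 * η)) := by
            apply mul_le_mul h10 hZm (by positivity) (by positivity)
        _ = _ := by ring
    refine h9.trans ?_
    calc (60 * Real.exp 1 / η * (m : ℝ) ^ 3) * Real.exp (2 * lam) *
          Real.exp (m * (-lam + 4 * η))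
        ≤ Real.exp (ε / 4 * m) * Real.exp (2 * lam) * Real.exp (m * (-lam + 4 * η)) := by
          apply mul_le_mul_of_nonneg_right _ (Real.exp_pos _).le
          exact mul_le_mul_of_nonneg_right c1 (Real.exp_pos _).le
      _ ≤ _ := by
          rw [← Real.exp_add, ← Real.exp_add]
          apply Real.exp_le_exp.2
          have h10 : 2 * lam ≤ ε / 4 * (m * lam) := by
            rw [div_le_iff₀ hε] at c2
            nlinarith
          have h11 : ε / 4 * m ≤ ε / 4 * (m * lam) := mul_le_mul_of_nonneg_left hmlam (by positivity)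
          have h12 : (m : ℝ) * (-lam + 4 * η) = -(m * lam) + ε / 4 * m := by
            rw [hη]
            ring
          rw [h12]
          nlinarith [mul_pos hε (lt_of_lt_of_le hm0 hmlam)]
  · set n₀ : ℕ := ⌈(1 + η / 2) * R⌉₊ with hn₀
    have hn₀ge : (1 + η / 2) * R ≤ n₀ := Nat.le_ceil _
    have hn₀lt : (n₀ : ℝ) < (1 + η / 2) * R + 1 := Nat.ceil_lt_add_one (by positivity)
    have hn₀le : (n₀ : ℝ) ≤ (1 + η) * R := by nlinarith
    have hn₀R : R ≤ n₀ := by nlinarith
    have hsq1 : (1 + η) * (N : ℝ) ≤ (n₀ : ℝ) ^ 2 := by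
      have h9 := pow_le_pow_left₀ (by positivity) hn₀ge 2
      refine le_trans ?_ h9
      rw [← hRR]
      nlinarith [mul_pos hR0 hR0, sq_nonneg (η * R)]
    have hsq2 : (n₀ : ℝ) ^ 2 ≤ 4 * N := by
      have h9 := pow_le_pow_left₀ (Nat.cast_nonneg _) hn₀le 2
      refine h9.trans ?_
      rw [← hRR, mul_pow]
      have h10 : (1 + η) ^ 2 ≤ 4 := by nlinarith
      have h11 : R ^ 2 = R * R := by ring
      rw [h11]
      exact mul_le_mul_of_nonneg_right h10 (by positivity)
    obtain ⟨a1, a2, a3, a4⟩ := h5 n₀ hsq1 hsq2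
    have hNn : N ≤ n₀ ^ 2 := by
      have : (N : ℝ) ≤ ((n₀ ^ 2 : ℕ) : ℝ) := by
        push_cast
        nlinarith
      exact_mod_cast this
    set δ : ℝ := Real.exp (-((1 + ε / 2) * (m * lam))) with hδ
    have hδ0 : 0 < δ := Real.exp_pos _
    have hcard : (Ioc (n₀ ^ 2) (n₀ ^ 2 + 2 * n₀)).card = 2 * n₀ := by
      rw [Nat.card_Ioc, Nat.add_sub_cancel_left]
    have hIlog : ∀ y ∈ Ioc (n₀ ^ 2) (n₀ ^ 2 + 2 * n₀), 3 ≤ y ∧ ℓ ≤ Real.log y := by
      intro y hy
      rw [mem_Ioc] at hy
      refine ⟨by omega, ?_⟩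
      apply Real.log_le_log (by linarith)
      exact_mod_cast (by omega : N ≤ y)
    have hLq : ℓ / (1 + η) ≤ ℓ - 1 := by
      rw [div_le_iff₀ (by linarith)]
      nlinarith
    have hL10 : 0 < ℓ - 1 := by linarith
    have h2n : 2 * (n₀ : ℝ) / (ℓ - 1) ≤ (1 + η) ^ 2 * x := by
      rw [div_le_iff₀ hL10]
      calc 2 * (n₀ : ℝ) ≤ 2 * ((1 + η) * R) := by linarith
        _ = (1 + η) ^ 2 * x * (ℓ / (1 + η)) := by
            rw [hxd]
            field_simp
        _ ≤ _ := mul_le_mul_of_nonneg_left hLq (by positivity)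
    have hmass : ∃ w : Finset ℕ → ℝ, IsLaw (Ioc (n₀ ^ 2) (n₀ ^ 2 + 2 * n₀)) k cp w ∧ δ ≤ w ∅ := by
      by_cases hcase : m = k / 2 ∧ (m : ℝ) * ℓ ≤ (1 - η) * (2 * n₀)
      · obtain ⟨hc1, hc2⟩ := hcase
        obtain ⟨w, w1, w2⟩ := mass_growing (I := Ioc (n₀ ^ 2) (n₀ ^ 2 + 2 * n₀)) (m := m)
          (L := ℓ) (σ := η) (by omega) hη0 (by linarith) h2 (by
            rw [hcard]
            push_cast
            exact hc2) hIlog
        refine ⟨w, ⟨w1.1, fun T hT hTc => w1.2 T hT (by omega)⟩, le_trans ?_ w2⟩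
        rw [hcard]
        have h9 : Real.exp 1 * ((2 * n₀ : ℕ) : ℝ) / (m * (ℓ - 1)) ≤ Real.exp (lam + 2 * η) := by
          have e1 : Real.exp 1 * ((2 * n₀ : ℕ) : ℝ) / (m * (ℓ - 1)) =
              Real.exp 1 / m * (2 * (n₀ : ℝ) / (ℓ - 1)) := by
            push_cast
            field_simp
          rw [e1]
          have h10 : (1 + η) ^ 2 ≤ Real.exp (2 * η) := by
            have h11 : 1 + η ≤ Real.exp η := by
              have := Real.add_one_le_exp η
              linarith
            have h12 : Real.exp (2 * η) = Real.exp η ^ 2 := by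
              rw [← Real.exp_nat_mul]
              norm_num
            rw [h12]
            exact pow_le_pow_left₀ (by linarith) h11 2
          calc Real.exp 1 / m * (2 * (n₀ : ℝ) / (ℓ - 1))
              ≤ Real.exp 1 / m * ((1 + η) ^ 2 * x) := mul_le_mul_of_nonneg_left h2n (by positivity)
            _ = Real.exp 1 * (x / m) * (1 + η) ^ 2 := by
                field_simp
            _ ≤ Real.exp 1 * (x / m) * Real.exp (2 * η) :=
                mul_le_mul_of_nonneg_left h10 (by positivity)
            _ = _ := by rw [Real.exp_add, hexl]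
        have h10 : 0 ≤ Real.exp 1 * ((2 * n₀ : ℕ) : ℝ) / (m * (ℓ - 1)) := by positivity
        have h11 := pow_le_pow_left₀ h10 h9 m
        rw [← Real.exp_nat_mul] at h11
        have h12 : 0 < (Real.exp 1 * ((2 * n₀ : ℕ) : ℝ) / (m * (ℓ - 1))) ^ m := by
          have : 0 < n₀ := by
            have : (0:ℝ) < n₀ := by linarith
            exact_mod_cast this
          have h13 : (0:ℝ) < ((2 * n₀ : ℕ) : ℝ) := by exact_mod_cast (by omega : 0 < 2 * n₀)
          positivity
        rw [le_div_iff₀ h12]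
        refine (mul_le_mul_of_nonneg_left h11 hδ0.le).trans ?_
        rw [hδ, ← Real.exp_add]
        have h13 : Real.exp (-(ε / 4 * m)) ≤ η / 32 := by
          rw [Real.exp_neg]
          have h14 : (Real.exp (ε / 4 * m))⁻¹ ≤ (32 / η)⁻¹ := inv_anti₀ (by positivity) c3
          rwa [inv_div] at h14
        refine le_trans (Real.exp_le_exp.2 ?_) h13
        have h14 : (m : ℝ) * (lam + 2 * η) = m * lam + ε / 8 * m := by
          rw [hη]
          ring
        rw [h14]
        nlinarith
      · -- large orders: full independence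
        have hmx2 : (1 - η) * x ≤ m := by
          by_cases hc1 : m = k / 2
          · have hc2 : (1 - η) * (2 * n₀) < (m : ℝ) * ℓ := by
              by_contra hcon
              push Not at hcon
              exact hcase ⟨hc1, hcon⟩
            have h9 : (1 - η) * (2 * R) ≤ (m : ℝ) * ℓ := by
              have : (1 - η) * (2 * R) ≤ (1 - η) * (2 * n₀) :=
                mul_le_mul_of_nonneg_left (by linarith) (by linarith)
              linarith
            rw [hxd, mul_div_assoc', div_le_iff₀ hℓ0]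
            exact h9
          · have hc2 : m = ⌊x⌋₊ := by
              rcases min_choice (k / 2) (MM N) with h | h
              · exact absurd h hc1
              · exact h
            have h9 := Nat.lt_floor_add_one x
            rw [← hc2] at h9
            rw [div_le_iff₀ hη0] at h8
            linarith
        obtain ⟨w, w1, w2⟩ := block_indep (I := Ioc (n₀ ^ 2) (n₀ ^ 2 + 2 * n₀)) (L := ℓ) k
          (by linarith) hIlog
        refine ⟨w, w1, le_trans ?_ w2⟩
        rw [hδ, hcard]
        apply Real.exp_le_exp.2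
        rw [neg_le_neg_iff]
        push_cast
        refine h2n.trans ?_
        have h9 : (1 + η) ^ 2 * x ≤ (1 + ε / 2) * ((1 - η) * x) := by
          have h10 : (1 + η) ^ 2 ≤ (1 + ε / 2) * (1 - η) := by
            have : ε = 16 * η := by rw [hη]; ring
            rw [this]
            nlinarith
          calc (1 + η) ^ 2 * x ≤ ((1 + ε / 2) * (1 - η)) * x :=
                mul_le_mul_of_nonneg_right h10 hx0.le
            _ = _ := by ring
        refine h9.trans ?_
        apply mul_le_mul_of_nonneg_left _ (by linarith)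
        exact hmx2.trans hmlam
    obtain ⟨Ω, mΩ, P, hP, E, hE, hT, hae⟩ := andrica_lower (N := N) (n₀ := n₀) (n₁ := n₀ + 1)
      (k := k) (j := ⌊R⌋₊) (δ := δ) (L := Real.log (4 * N)) (by omega) (by
        have : m ≤ k / 2 := min_le_left _ _
        omega) hδ0.le
      (by
        intro n hn1 hn2
        have : n = n₀ := by omega
        rw [this]
        exact hmass)
      a1 a2 a3 (Real.log_pos (by linarith))
    refine ⟨Ω, mΩ, P, hP, E, hE, hT, le_trans ?_ hae⟩
    apply ENNReal.ofReal_le_ofReal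
    have hc1 : ((n₀ + 1 - n₀ : ℕ) : ℝ) = 1 := by rw [Nat.add_sub_cancel_left, Nat.cast_one]
    rw [hc1, neg_one_mul]
    have hml0 : 0 < m * lam := lt_of_lt_of_le hm0 hmlam
    have hδ1 : δ ≤ 1 := by
      rw [hδ, Real.exp_le_one_iff]
      nlinarith
    have h9 := one_sub_exp hδ0.le hδ1
    have h10 : Real.exp (-((1 + ε) * (m * lam))) ≤ δ / 4 := by
      have h11 : Real.exp (-((1 + ε) * (m * lam))) = δ * Real.exp (-(ε / 2 * (m * lam))) := by
        rw [hδ, ← Real.exp_add]
        congr 1
        ring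
      rw [h11, div_eq_mul_inv]
      apply mul_le_mul_of_nonneg_left _ hδ0.le
      rw [Real.exp_neg]
      apply inv_anti₀ (by norm_num)
      refine c4.trans ?_
      apply Real.exp_le_exp.2
      exact mul_le_mul_of_nonneg_left hmlam (by positivity)
    have h11 : Real.exp (-(2 * R)) ≤ δ / 4 := by
      have h12 : Real.exp (-(3 / 2 * x)) ≤ δ := by
        rw [hδ]
        apply Real.exp_le_exp.2
        rw [neg_le_neg_iff]
        calc (1 + ε / 2) * (m * lam) ≤ (1 + ε / 2) * x :=
              mul_le_mul_of_nonneg_left hFx (by linarith)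
          _ ≤ _ := mul_le_mul_of_nonneg_right (by linarith) hx0.le
      have h13 : x ≤ R / 2 := by
        rw [hxd, div_le_iff₀ hℓ0]
        nlinarith
      have h14 : Real.exp (-(2 * R)) ≤ Real.exp (-(3 / 2 * x)) * Real.exp (-2) := by
        rw [← Real.exp_add]
        apply Real.exp_le_exp.2
        linarith
      have h15 : Real.exp (-2) ≤ 1 / 4 := by
        rw [Real.exp_neg, ← one_div]
        apply one_div_le_one_div_of_le (by norm_num)
        have h16 : Real.exp 2 = Real.exp 1 ^ 2 := by
          rw [← Real.exp_nat_mul]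
          norm_num
        have h17 : (2:ℝ) ≤ Real.exp 1 := by
          have := Real.add_one_le_exp 1
          linarith
        rw [h16]
        nlinarith
      calc Real.exp (-(2 * R)) ≤ Real.exp (-(3 / 2 * x)) * Real.exp (-2) := h14
        _ ≤ δ * (1 / 4) := mul_le_mul h12 h15 (Real.exp_pos _).le hδ0.le
        _ = _ := by ring
    linarith

end Q167.AN
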